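import Pool.Agent.Q281.BSG.Api

set_option autoImplicit false

/-!
# Conjugacy growth of `BS(1,k)`: statements of the lemmas
-/

open Filter Topology

namespace Pool.Agent.Q281.BSG

/-- LOG: a loop `(y/k^I, 0)` with `|y/k^I| ≤ k^n` costs `O(n+1)`. -/
def S_LOG : Prop :=
  ∀ (k : ℕ) (G : Type) [Group G] (μ : Model k G) (S : Set G) (M : ℕ), Hyp μ S M →
    ∀ I : ℕ, ∃ C : ℕ, ∀ (n : ℕ) (g : G) (y : ℤ), μ.m g = 0 → μ.x g = y / (k : ℚ) ^ I →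
      |μ.x g| ≤ (k : ℚ) ^ n → wlen S g ≤ C * (n + 1)

/-- B: a geodesic word visits every level a bounded number of times. -/
def S_B : Prop :=
  ∀ (k : ℕ) (G : Type) [Group G] (μ : Model k G) (S : Set G) (M : ℕ), Hyp μ S M →
    ∃ N : ℕ, ∀ w : List G, IsWord S w → w.length = wlen S w.prod → ∀ h : ℤ,
      ((Finset.range w.length).filter (fun i => μ.m (w.take i).prod = h)).card ≤ N

/-- C (cut lemma): `|(u,p)| + |(v,q)| ≤ |(u + k^p v, p+q)| + C` for integers `|u| ≤ k^p` and `v`. -/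
def S_C : Prop :=
  ∀ (k : ℕ) (G : Type) [Group G] (μ : Model k G) (S : Set G) (M : ℕ), Hyp μ S M →
    ∃ C : ℕ, ∀ (p q : ℕ) (u v : ℤ) (g h : G), μ.m g = p → μ.m h = q → μ.x g = u → μ.x h = v →
      |u| ≤ (k : ℤ) ^ p → wlen S g + wlen S h ≤ wlen S (g * h) + C

/-- CYC: among the elements of its conjugacy class `(u,p)`, `0 ≤ u < k^p`, is shortest up to a constant. -/
def S_CYC : Prop :=
  ∀ (k : ℕ) (G : Type) [Group G] (μ : Model k G) (S : Set G) (M : ℕ), Hyp μ S M →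
    ∃ C : ℕ, ∀ (p : ℕ) (u : ℤ) (g h : G), 1 ≤ p → 0 ≤ u → u < (k : ℤ) ^ p → μ.x g = u → μ.m g = p →
      IsConj g h → wlen S g ≤ wlen S h + C

/-- LOW: lower bound for the series of the classes of exponent `m ≥ 1`. -/
def S_LOW : Prop :=
  ∀ (k : ℕ) (G : Type) [Group G] (μ : Model k G) (S : Set G) (M : ℕ), Hyp μ S M →
    ∀ (m : ℕ) (z : ℝ), 1 ≤ m → 0 < z → z ≤ 1 →
      ENNReal.ofReal (NN k (LL μ S) m z) ≤ (m + 1) * EE μ S m z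

/-- UP: upper bound for the series of the classes of exponent `m ≥ 1`. -/
def S_UP : Prop :=
  ∀ (k : ℕ) (G : Type) [Group G] (μ : Model k G) (S : Set G) (M : ℕ), Hyp μ S M →
    ∃ C : ℕ, ∀ (m : ℕ) (z : ℝ), 1 ≤ m → 0 < z → z ≤ 1 →
      EE μ S m z * ENNReal.ofReal (z ^ C) ≤
        ENNReal.ofReal (NN k (LL μ S) m z / m + m * z ^ (m / 2 / M) * NN k (LL μ S) (m / 2) z)

/-- E0: the series of the classes of exponent `0` converges wherever all `N_m` are at most `1`. -/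
def S_E0 : Prop :=
  ∀ (k : ℕ) (G : Type) [Group G] (μ : Model k G) (S : Set G) (M : ℕ), Hyp μ S M →
    ∀ z : ℝ, 0 < z → z < 1 → (∀ m, NN k (LL μ S) m z ≤ 1) → EE μ S 0 z ≠ ⊤

/-- N (Mathlib only): the critical point. -/
def S_N : Prop :=
  ∀ (k C M : ℕ) (L : ℕ → ℕ → ℕ), 2 ≤ k → 1 ≤ M → L 0 0 = 0 →
    (∀ m n u v, u < k ^ m → v < k ^ n → L (m + n) (u + k ^ m * v) ≤ L m u + L n v) →
    (∀ m n u v, u < k ^ m → v < k ^ n → L m u + L n v ≤ L (m + n) (u + k ^ m * v) + C) →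
    (∀ m u, u < k ^ m → m ≤ M * L m u) →
    ∃ z0 : ℝ, 0 < z0 ∧ z0 < 1 ∧ ∀ m, z0 ^ C ≤ NN k L m z0 ∧ NN k L m z0 ≤ 1

/-- T (Mathlib only): a power series with logarithmic growth at its first singularity is transcendental. -/
def S_T : Prop :=
  ∀ (f : PowerSeries ℚ) (z0 : ℝ), 0 < z0 → (∀ n, 0 ≤ PowerSeries.coeff n f) →
    (∀ z : ℝ, 0 ≤ z → z < z0 → Summable fun n => ((PowerSeries.coeff n f : ℚ) : ℝ) * z ^ n) →
    Tendsto (fun z : ℝ => ∑' n, ((PowerSeries.coeff n f : ℚ) : ℝ) * z ^ n) (𝓝[<] z0) atTop →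
    (∀ J : ℕ, Tendsto (fun z : ℝ => (z0 - z) * (∑' n, ((PowerSeries.coeff n f : ℚ) : ℝ) * z ^ n) ^ J)
      (𝓝[<] z0) (𝓝 0)) →
    Transcendental (Polynomial ℚ) f

/-- FIN (Mathlib only): assembly of the analytic part. `K` is the set of classes, `c` the length, `e` the exponent. -/
def S_FIN : Prop :=
  ∀ (K : Type) (c : K → ℕ) (e : K → ℤ) (k C M : ℕ) (L : ℕ → ℕ → ℕ) (z0 : ℝ),
    (∀ n, {κ | c κ = n}.Finite) → 2 ≤ k → 1 ≤ M → 0 < z0 → z0 < 1 →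
    (∀ m, z0 ^ C ≤ NN k L m z0 ∧ NN k L m z0 ≤ 1) →
    (∀ m u, u < k ^ m → m ≤ M * L m u) →
    (∀ (a : ℤ) (z : ℝ), (∑' κ : {κ : K // e κ = -a}, ENNReal.ofReal z ^ c κ.1) =
      ∑' κ : {κ : K // e κ = a}, ENNReal.ofReal z ^ c κ.1) →
    (∑' κ : {κ : K // e κ = 0}, ENNReal.ofReal z0 ^ c κ.1) ≠ ⊤ →
    (∀ (m : ℕ) (z : ℝ), 1 ≤ m → 0 < z → z ≤ 1 → ENNReal.ofReal (NN k L m z) ≤
      (m + 1) * ∑' κ : {κ : K // e κ = m}, ENNReal.ofReal z ^ c κ.1) →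
    (∀ (m : ℕ) (z : ℝ), 1 ≤ m → 0 < z → z ≤ 1 →
      (∑' κ : {κ : K // e κ = m}, ENNReal.ofReal z ^ c κ.1) * ENNReal.ofReal (z ^ C) ≤
        ENNReal.ofReal (NN k L m z / m + m * z ^ (m / 2 / M) * NN k L (m / 2) z)) →
    Transcendental (Polynomial ℚ) (PowerSeries.mk fun n => (Nat.card {κ : K // c κ = n} : ℚ))

/-- the relator `t a t⁻¹ a⁻ᵏ` (`a` is the generator `0`, `t` the generator `1`) -/
def rels (k : ℕ) : Set (FreeGroup (Fin 2)) :=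
  {FreeGroup.of 1 * FreeGroup.of 0 * (FreeGroup.of 1)⁻¹ * (FreeGroup.of 0 ^ k)⁻¹}

/-- `BS(1,k) = ⟨a, t | t a t⁻¹ = aᵏ⟩` -/
abbrev BS (k : ℕ) : Type := PresentedGroup (rels k)

/-- MOD: coordinates on `BS(1,k)`. -/
def S_MOD : Prop := ∀ k : ℕ, 2 ≤ k → Nonempty (Model k (BS k))

end Pool.Agent.Q281.BSG
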