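import Pool.Agent.Q281.BSG.Def

set_option autoImplicit false

/-!
# Conjugacy growth of `BS(1,k)`: basic facts
-/

namespace Pool.Agent.Q281.BSG

section words

variable {G : Type} [Group G] {S : Set G}

theorem IsWord.nil : IsWord S ([] : List G) := by intro s hs; simp at hs

theorem IsWord.append {w v : List G} (hw : IsWord S w) (hv : IsWord S v) : IsWord S (w ++ v) := by
  intro s hs
  rcases List.mem_append.1 hs with h | h
  · exact hw s h
  · exact hv s h

theorem IsWord.take {w : List G} (hw : IsWord S w) (i : ℕ) : IsWord S (w.take i) :=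
  fun s hs => hw s (List.mem_of_mem_take hs)

theorem IsWord.drop {w : List G} (hw : IsWord S w) (i : ℕ) : IsWord S (w.drop i) :=
  fun s hs => hw s (List.mem_of_mem_drop hs)

/-- the inverse word -/
def winv (w : List G) : List G := (w.map (fun s => s⁻¹)).reverse

theorem IsWord.winv {w : List G} (hw : IsWord S w) : IsWord S (winv w) := by
  intro s hs
  unfold BSG.winv at hs
  rw [List.mem_reverse, List.mem_map] at hs
  obtain ⟨t, ht, rfl⟩ := hs
  rcases hw t ht with h | h
  · right; simpa using h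
  · left; exact h

theorem prod_winv (w : List G) : (winv w).prod = w.prod⁻¹ := by
  unfold winv
  rw [List.prod_inv_reverse]

theorem length_winv (w : List G) : (winv w).length = w.length := by
  unfold winv; simp

theorem exists_word (hgen : Subgroup.closure S = ⊤) (g : G) : ∃ w : List G, IsWord S w ∧ w.prod = g := by
  have hg : g ∈ Subgroup.closure S := by rw [hgen]; trivial
  induction hg using Subgroup.closure_induction with
  | mem x hx => exact ⟨[x], by intro s hs; simp at hs; subst hs; exact Or.inl hx, by simp⟩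
  | one => exact ⟨[], IsWord.nil, rfl⟩
  | mul x y _ _ hx hy =>
    obtain ⟨w, hw, hw'⟩ := hx
    obtain ⟨v, hv, hv'⟩ := hy
    exact ⟨w ++ v, hw.append hv, by rw [List.prod_append, hw', hv']⟩
  | inv x _ hx =>
    obtain ⟨w, hw, hw'⟩ := hx
    exact ⟨winv w, hw.winv, by rw [prod_winv, hw']⟩

theorem exists_geod (hgen : Subgroup.closure S = ⊤) (g : G) :
    ∃ w : List G, IsWord S w ∧ w.prod = g ∧ w.length = wlen S g := by
  have h : {n | ∃ w : List G, IsWord S w ∧ w.prod = g ∧ w.length = n}.Nonempty := by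
    obtain ⟨w, hw, hw'⟩ := exists_word hgen g
    exact ⟨w.length, w, hw, hw', rfl⟩
  exact Nat.sInf_mem h

theorem wlen_le {w : List G} (hw : IsWord S w) : wlen S w.prod ≤ w.length :=
  Nat.sInf_le ⟨w, hw, rfl, rfl⟩

theorem wlen_le' {w : List G} {g : G} (hw : IsWord S w) (h : w.prod = g) : wlen S g ≤ w.length :=
  h ▸ wlen_le hw

theorem wlen_one : wlen S (1 : G) = 0 := by
  have := wlen_le (S := S) (w := []) IsWord.nil
  simpa using this

theorem wlen_mul_le (hgen : Subgroup.closure S = ⊤) (g h : G) : wlen S (g * h) ≤ wlen S g + wlen S h := by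
  obtain ⟨w, hw, hw', hw2⟩ := exists_geod hgen g
  obtain ⟨v, hv, hv', hv2⟩ := exists_geod hgen h
  have := wlen_le' (g := g * h) (hw.append hv) (by rw [List.prod_append, hw', hv'])
  rwa [List.length_append, hw2, hv2] at this

theorem wlen_inv (hgen : Subgroup.closure S = ⊤) (g : G) : wlen S g⁻¹ = wlen S g := by
  have key : ∀ g : G, wlen S g⁻¹ ≤ wlen S g := by
    intro g
    obtain ⟨w, hw, hw', hw2⟩ := exists_geod hgen g
    have := wlen_le' (g := g⁻¹) hw.winv (by rw [prod_winv, hw'])
    rwa [length_winv, hw2] at this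
  refine le_antisymm (key g) ?_
  have := key g⁻¹
  rwa [inv_inv] at this

/-- a subword of a geodesic word is geodesic -/
theorem geod_take (hgen : Subgroup.closure S = ⊤) {w : List G} (hw : IsWord S w)
    (h : w.length = wlen S w.prod) (i : ℕ) : (w.take i).length = wlen S (w.take i).prod := by
  have h1 := wlen_le (hw.take i)
  have h2 := wlen_le (hw.drop i)
  have h3 := wlen_mul_le hgen (w.take i).prod (w.drop i).prod
  rw [← List.prod_append, List.take_append_drop] at h3
  have h4 : (w.take i).length + (w.drop i).length = w.length := by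
    rw [← List.length_append, List.take_append_drop]
  omega

theorem geod_drop (hgen : Subgroup.closure S = ⊤) {w : List G} (hw : IsWord S w)
    (h : w.length = wlen S w.prod) (i : ℕ) : (w.drop i).length = wlen S (w.drop i).prod := by
  have h1 := wlen_le (hw.take i)
  have h2 := wlen_le (hw.drop i)
  have h3 := wlen_mul_le hgen (w.take i).prod (w.drop i).prod
  rw [← List.prod_append, List.take_append_drop] at h3
  have h4 : (w.take i).length + (w.drop i).length = w.length := by
    rw [← List.length_append, List.take_append_drop]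
  omega

theorem exists_bound (S : Set G) {F : Set G} (hF : F.Finite) : ∃ C : ℕ, ∀ g ∈ F, wlen S g ≤ C := by
  obtain ⟨C, hC⟩ := (hF.image (wlen S)).bddAbove
  exact ⟨C, fun g hg => hC ⟨g, hg, rfl⟩⟩

/-- balls are finite -/
theorem ball_finite (hS : S.Finite) (hgen : Subgroup.closure S = ⊤) (n : ℕ) : {g : G | wlen S g ≤ n}.Finite := by
  have hT : (S ∪ {s | s⁻¹ ∈ S} : Set G).Finite := by
    refine hS.union ?_
    have : {s : G | s⁻¹ ∈ S} = (fun s => s⁻¹) '' S := by
      ext s
      constructor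
      · intro h; exact ⟨s⁻¹, h, by simp⟩
      · rintro ⟨t, ht, rfl⟩; simpa using ht
    rw [this]
    exact hS.image _
  have h1 : {w : List G | w.length ≤ n ∧ ∀ s ∈ w, s ∈ (S ∪ {s | s⁻¹ ∈ S} : Set G)}.Finite := by
    haveI := hT.to_subtype
    refine ((List.finite_length_le (S ∪ {s | s⁻¹ ∈ S} : Set G) n).image (List.map Subtype.val)).subset ?_
    rintro w ⟨h1, h2⟩
    refine ⟨w.attach.map (fun s => ⟨s.1, h2 s.1 s.2⟩), by simpa using h1, ?_⟩
    rw [List.map_map]
    simp
  refine (h1.image List.prod).subset ?_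
  intro g hg
  obtain ⟨w, hw, hw', hw2⟩ := exists_geod hgen g
  exact ⟨w, ⟨by rw [hw2]; exact hg, fun s hs => hw s hs⟩, hw'⟩

theorem exists_clen (S : Set G) (κ : ConjClasses G) : ∃ g : G, ConjClasses.mk g = κ ∧ wlen S g = clen S κ := by
  have h : {n | ∃ g : G, ConjClasses.mk g = κ ∧ wlen S g = n}.Nonempty := by
    obtain ⟨g, hg⟩ := κ.exists_rep
    exact ⟨wlen S g, g, hg, rfl⟩
  exact Nat.sInf_mem h

theorem clen_le (S : Set G) {κ : ConjClasses G} {g : G} (h : ConjClasses.mk g = κ) : clen S κ ≤ wlen S g :=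
  Nat.sInf_le ⟨g, h, rfl⟩

theorem clen_fiber_finite (hS : S.Finite) (hgen : Subgroup.closure S = ⊤) (n : ℕ) :
    {κ : ConjClasses G | clen S κ = n}.Finite := by
  refine ((ball_finite hS hgen n).image ConjClasses.mk).subset ?_
  intro κ hκ
  obtain ⟨g, hg, hg2⟩ := exists_clen S κ
  exact ⟨g, by rw [Set.mem_ofPred_eq, hg2]; exact le_of_eq hκ, hg⟩

end words

section model

variable {k : ℕ} {G : Type} [Group G] (μ : Model k G) {S : Set G} {M : ℕ}

theorem Model.m_one : μ.m 1 = 0 := by
  have := μ.m_mul 1 1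
  rw [mul_one] at this
  omega

theorem Model.m_inv (g : G) : μ.m g⁻¹ = -μ.m g := by
  have := μ.m_mul g g⁻¹
  rw [mul_inv_cancel, μ.m_one] at this
  omega

theorem Model.x_one : μ.x 1 = 0 := by
  have := μ.x_mul 1 1
  rw [mul_one, μ.m_one, zpow_zero, one_mul] at this
  linarith

theorem Model.x_inv (g : G) : μ.x g⁻¹ = -((k : ℚ) ^ (-μ.m g) * μ.x g) := by
  have h := μ.x_mul g⁻¹ g
  rw [inv_mul_cancel, μ.x_one, μ.m_inv] at h
  linarith

theorem Model.m_prod (w : List G) : μ.m w.prod = (w.map μ.m).sum := by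
  induction w with
  | nil => simp [μ.m_one]
  | cons a l ih => rw [List.prod_cons, μ.m_mul, ih, List.map_cons, List.sum_cons]

theorem Model.m_pow (g : G) (n : ℕ) : μ.m (g ^ n) = n * μ.m g := by
  induction n with
  | zero => simp [μ.m_one]
  | succ n ih => rw [pow_succ, μ.m_mul, ih]; push_cast; ring

theorem Model.m_conj (g h : G) : μ.m (g * h * g⁻¹) = μ.m h := by
  rw [μ.m_mul, μ.m_mul, μ.m_inv]; ring

theorem Model.m_isConj {g h : G} (H : IsConj g h) : μ.m g = μ.m h := by
  obtain ⟨c, hc⟩ := isConj_iff.1 H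
  rw [← hc, μ.m_conj]

theorem Model.cm_mk (g : G) : μ.cm (ConjClasses.mk g) = μ.m g := by
  unfold Model.cm
  have h := (ConjClasses.mk g).exists_rep.choose_spec
  exact μ.m_isConj (ConjClasses.mk_eq_mk_iff_isConj.1 h)

theorem Model.x_el (u e : ℤ) : μ.x (μ.el u e) = u := by
  have h : μ.x (μ.el u e) = u / (k : ℚ) ^ 0 := (μ.surj 0 u e).choose_spec.1
  rw [h, pow_zero, div_one]

theorem Model.m_el (u e : ℤ) : μ.m (μ.el u e) = e := (μ.surj 0 u e).choose_spec.2

theorem Model.eq_el {g : G} {u e : ℤ} (hx : μ.x g = u) (hm : μ.m g = e) : g = μ.el u e :=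
  μ.ext _ _ (by rw [hx, μ.x_el]) (by rw [hm, μ.m_el])

theorem Model.x_conj (hk : 2 ≤ k) (g h : G) :
    μ.x (g * h * g⁻¹) = μ.x g + (k : ℚ) ^ μ.m g * μ.x h - (k : ℚ) ^ μ.m h * μ.x g := by
  have hk0 : (k : ℚ) ≠ 0 := by positivity
  rw [μ.x_mul, μ.x_mul, μ.x_inv, μ.m_mul]
  have : (k : ℚ) ^ (μ.m g + μ.m h) * -((k : ℚ) ^ (-μ.m g) * μ.x g) = - ((k : ℚ) ^ μ.m h * μ.x g) := by
    rw [zpow_add₀ hk0, zpow_neg]
    field_simp
  rw [this]; ring

/-- the coordinate `x` of a product is the sum of the contributions of the letters -/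
theorem Model.x_prod (hk : 2 ≤ k) (w : List G) :
    μ.x w.prod = ∑ i ∈ Finset.range w.length, (k : ℚ) ^ μ.m (w.take i).prod * μ.x (w.getD i 1) := by
  have hk0 : (k : ℚ) ≠ 0 := by positivity
  induction w with
  | nil => simp [μ.x_one]
  | cons a l ih =>
    rw [List.prod_cons, μ.x_mul, ih, List.length_cons, Finset.sum_range_succ', add_comm]
    congr 1
    · rw [Finset.mul_sum]
      refine Finset.sum_congr rfl fun i _ => ?_
      rw [List.take_succ_cons, List.prod_cons, μ.m_mul, zpow_add₀ hk0, List.getD_cons_succ, mul_assoc]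
    · simp [μ.m_one]

theorem Hyp.letter {μ : Model k G} (H : Hyp μ S M) {s : G} (hs : s ∈ S ∨ s⁻¹ ∈ S) : |μ.m s| ≤ M := by
  rcases hs with h | h
  · exact H.bd s h
  · have := H.bd _ h
    rwa [μ.m_inv, abs_neg] at this

theorem Hyp.abs_m_prod_le {μ : Model k G} (H : Hyp μ S M) {w : List G} (hw : IsWord S w) :
    |μ.m w.prod| ≤ M * w.length := by
  induction w with
  | nil => simp [μ.m_one]
  | cons a l ih =>
    rw [List.prod_cons, μ.m_mul, List.length_cons]
    have h1 := H.letter (hw a (by simp))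
    have h2 := ih (fun s hs => hw s (by simp [hs]))
    calc |μ.m a + μ.m l.prod| ≤ |μ.m a| + |μ.m l.prod| := abs_add_le _ _
      _ ≤ M + M * l.length := add_le_add h1 h2
      _ = M * ((l.length + 1 : ℕ) : ℤ) := by push_cast; ring

/-- the level changes by at most `M` in one step -/
theorem Hyp.step {μ : Model k G} (H : Hyp μ S M) {w : List G} (hw : IsWord S w) (i : ℕ) :
    |μ.m (w.take (i + 1)).prod - μ.m (w.take i).prod| ≤ M := by
  by_cases hi : i < w.length
  · rw [List.take_succ_eq_append_getElem hi, List.prod_append, μ.m_mul]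
    have := H.letter (hw w[i] (List.getElem_mem hi))
    simpa using this
  · rw [List.take_of_length_le (by omega), List.take_of_length_le (by omega)]
    simp

theorem Hyp.abs_m_le {μ : Model k G} (H : Hyp μ S M) (g : G) : |μ.m g| ≤ M * wlen S g := by
  obtain ⟨w, hw, hw', hw2⟩ := exists_geod H.gen g
  have := H.abs_m_prod_le hw
  rwa [hw', hw2] at this

/-- a bound for the numerators and denominators of the letters -/
theorem Hyp.exists_letter_bound {μ : Model k G} (H : Hyp μ S M) :
    ∃ I X : ℕ, 1 ≤ X ∧ ∀ s : G, (s ∈ S ∨ s⁻¹ ∈ S) → |μ.x s| ≤ X ∧ ∃ n : ℤ, μ.x s = n / (k : ℚ) ^ I := by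
  have hk0 : (k : ℚ) ≠ 0 := by have := H.two_le; positivity
  have hT : {s : G | s ∈ S ∨ s⁻¹ ∈ S}.Finite := by
    have h2 : {s : G | s⁻¹ ∈ S}.Finite := by
      have : {s : G | s⁻¹ ∈ S} = (fun s => s⁻¹) '' S := by
        ext s
        constructor
        · intro h; exact ⟨s⁻¹, h, by simp⟩
        · rintro ⟨t, ht, rfl⟩; simpa using ht
      rw [this]
      exact H.fin.image _
    exact H.fin.union h2
  have h1 := fun s : G => μ.den s
  choose i n hin using h1
  obtain ⟨I, hI⟩ := (hT.image i).bddAbove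
  obtain ⟨X, hX⟩ := (hT.image (fun s => |μ.x s|)).bddAbove
  obtain ⟨X', hX'⟩ := exists_nat_ge X
  refine ⟨I, X' + 1, by omega, fun s hs => ⟨?_, n s * k ^ (I - i s), ?_⟩⟩
  · have := hX ⟨s, hs, rfl⟩
    push_cast
    simp only at this
    linarith
  · have h3 : i s ≤ I := hI ⟨s, hs, rfl⟩
    rw [hin s]
    obtain ⟨j, rfl⟩ := Nat.exists_eq_add_of_le h3
    rw [Nat.add_sub_cancel_left]
    push_cast
    rw [pow_add]
    field_simp

end model

end Pool.Agent.Q281.BSG
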