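import Pool.Agent.Q281.BSG.Runs

set_option autoImplicit false

/-!
# Conjugacy growth of `BS(1,k)`: job B, bounded visits
-/

namespace Pool.Agent.Q281.BSG

section

variable {k : ℕ} {G : Type} [Group G] {μ : Model k G} {S : Set G} {M : ℕ}

theorem countP_add (l : List ℤ) (x y z : ℤ) (hxy : x ≤ y) (hyz : y ≤ z) :
    l.countP (fun h => x ≤ h ∧ h < z) = l.countP (fun h => x ≤ h ∧ h < y) + l.countP (fun h => y ≤ h ∧ h < z) := by
  induction l with
  | nil => rfl
  | cons a l ih =>
    rw [List.countP_cons, List.countP_cons, List.countP_cons, ih]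
    by_cases h1 : x ≤ a <;> by_cases h2 : a < y <;> by_cases h3 : y ≤ a <;> by_cases h4 : a < z <;>
      simp [h1, h2, h3, h4] <;> omega

theorem exists_abs_bound (l : List ℤ) : ∃ B : ℕ, ∀ h ∈ l, |h| ≤ B := by
  induction l with
  | nil => exact ⟨0, by simp⟩
  | cons a l ih =>
    obtain ⟨B, hB⟩ := ih
    refine ⟨B + a.natAbs, ?_⟩
    intro h hh
    rcases List.mem_cons.1 hh with rfl | hh
    · push_cast; linarith
    · have h1 := hB h hh
      push_cast
      have h2 : (0 : ℤ) ≤ |a| := abs_nonneg a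
      linarith

theorem Hyp.window (H : Hyp μ S M) {I X D : ℕ}
    (hIX : ∀ s : G, (s ∈ S ∨ s⁻¹ ∈ S) → |μ.x s| ≤ X ∧ ∃ n : ℤ, μ.x s = n / (k : ℚ) ^ I)
    (hD : ∀ (n : ℕ) (g : G) (y : ℤ), μ.m g = 0 → μ.x g = y / (k : ℚ) ^ I →
      |μ.x g| ≤ (k : ℚ) ^ n → wlen S g ≤ D * (n + 1))
    (a : ℤ) (R : ℕ) (hab : M ≤ R) (w : List G) (e : ℤ) (hw : IsWord S w) (hgeo : w.length = wlen S w.prod)
    (hae : a ≤ e) (heb : e < a + R) (s : ℕ)
    (hs : (lev μ e w).countP (fun h => a ≤ h ∧ h < a + R) * X ≤ k ^ s) :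
    (lev μ e w).countP (fun h => a ≤ h ∧ h < a + R) ≤
      2 * M * wlen S (μ.el 0 1) * ((lev μ e w).countP (fun h => a - M ≤ h ∧ h < a) +
        (lev μ e w).countP (fun h => a + R ≤ h ∧ h < a + R + M)) + D * (R + s + 1) +
        (3 * R + M) * wlen S (μ.el 0 1) := by
  have hk := H.two_le
  have hk0 : (k : ℚ) ≠ 0 := by positivity
  have hkp : (0 : ℚ) < k := by positivity
  obtain ⟨u, v, gL, gI, gH, nL, nI, nH, rL, rH, d1, d2, d3, d4, d5, d6, d7, d8, ⟨m9, d9⟩, d10, d11, d12, d13, d14, d15⟩ :=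
    H.dec hIX a (a + R) (by omega) w.length w e le_rfl hw hae heb
  rw [← d11] at hs ⊢
  set c := wlen S (μ.el 0 1) with hc
  have h1 : u.length = wlen S u.prod := by
    have := geod_take H.gen hw hgeo u.length
    rw [d1, List.take_left' rfl] at this
    exact this
  have h2 : u.prod = μ.el 0 (a - e) * (gL * (gI * (μ.el 0 R * (gH * μ.el 0 (e + μ.m u.prod - (a + R)))))) := by
    refine μ.ext _ _ ?_ ?_
    · simp only [μ.x_mul, μ.x_el, μ.m_el, d2, d3, d4, Int.cast_zero, zpow_zero, one_mul, zero_add, mul_zero, add_zero]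
      have h3 : (k : ℚ) ^ e ≠ 0 := zpow_ne_zero _ hk0
      apply mul_left_cancel₀ h3
      rw [d5, ← mul_assoc, ← zpow_add₀ hk0, zpow_add₀ hk0 a]
      have : e + (a - e) = a := by ring
      rw [this]
      ring
    · simp only [μ.m_mul, μ.m_el, d2, d3, d4]; ring
  have h4 : wlen S gI ≤ D * (R + s + 1) := by
    have := hD (R + s) gI m9 d3 d9 (by
      refine d10.trans ?_
      rw [add_sub_cancel_left, zpow_natCast, add_comm R s, pow_add]
      have : ((nI * X : ℕ) : ℚ) ≤ ((k ^ s : ℕ) : ℚ) := by exact_mod_cast hs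
      push_cast at this
      exact mul_le_mul_of_nonneg_right this (by positivity))
    exact this
  have h5 := wlen_mul_le H.gen (μ.el 0 (a - e)) (gL * (gI * (μ.el 0 R * (gH * μ.el 0 (e + μ.m u.prod - (a + R))))))
  have h6 := wlen_mul_le H.gen gL (gI * (μ.el 0 R * (gH * μ.el 0 (e + μ.m u.prod - (a + R)))))
  have h7 := wlen_mul_le H.gen gI (μ.el 0 R * (gH * μ.el 0 (e + μ.m u.prod - (a + R))))
  have h8 := wlen_mul_le H.gen (μ.el 0 R) (gH * μ.el 0 (e + μ.m u.prod - (a + R)))
  have h9 := wlen_mul_le H.gen gH (μ.el 0 (e + μ.m u.prod - (a + R)))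
  rw [← h2, ← h1] at h5
  have h10 := H.conn_le (a - e)
  have h11 := H.conn_le (R : ℤ)
  have h12 := H.conn_le (e + μ.m u.prod - (a + R))
  rw [Int.natAbs_natCast] at h11
  rw [← hc] at h10 h11 h12
  have h13 : (a - e).natAbs * c + R * c + (e + μ.m u.prod - (a + R)).natAbs * c ≤ (3 * R + M) * c := by
    rw [← add_mul, ← add_mul]
    apply Nat.mul_le_mul_right
    omega
  have h14 : 2 * M * c * rL + 2 * M * c * rH ≤ 2 * M * c * ((lev μ e w).countP (fun h => a - M ≤ h ∧ h < a) +
        (lev μ e w).countP (fun h => a + R ≤ h ∧ h < a + R + M)) := by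
    rw [← mul_add]
    apply Nat.mul_le_mul_left
    omega
  omega

/-- the numerical part: a bound for the number of letters in the window -/
theorem num_bound (M c D X : ℕ) :
    ∃ N1 N2 : ℕ, 1 ≤ N1 ∧ ∀ n R cL cH : ℕ, N1 * R ≤ n → cL < N1 → cH < N1 → 1 ≤ R →
      (∀ s, n * X ≤ 2 ^ s → n ≤ 2 * M * c * (cL + cH) + D * (R * M + s + 1) + (3 * (R * M) + M) * c) → n ≤ N2 := by
  set N1 := 8 * (D * M + 3 * M * c) + 1 with hN1
  set A := 8 * (D + 1) with hA
  refine ⟨N1, 2 * (4 * M * c * N1 + D * (A * X) + D + M * c), by omega, ?_⟩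
  intro n R cL cH hn hL hH hR h
  have h1 : n * X ≤ 2 ^ (n / A + A * X) := by
    have h2 : n ≤ A * 2 ^ (n / A) := by
      have h3 : n < A * (n / A + 1) := by
        have := Nat.lt_mul_div_succ n (show 0 < A by omega)
        exact this
      have h4 : n / A + 1 ≤ 2 ^ (n / A) := Nat.lt_two_pow_self
      exact h3.le.trans (Nat.mul_le_mul_left _ h4)
    calc n * X ≤ A * 2 ^ (n / A) * X := Nat.mul_le_mul_right _ h2
      _ = 2 ^ (n / A) * (A * X) := by ring
      _ ≤ 2 ^ (n / A) * 2 ^ (A * X) := Nat.mul_le_mul_left _ Nat.lt_two_pow_self.le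
      _ = 2 ^ (n / A + A * X) := by rw [pow_add]
  have h2 := h _ h1
  have h3 : 8 * (D * (n / A)) ≤ n := by
    have : A * (n / A) ≤ n := Nat.mul_div_le n A
    have h4 : A * (n / A) = 8 * (D * (n / A)) + 8 * (n / A) := by rw [hA]; ring
    omega
  have h4 : 8 * ((D * M + 3 * M * c) * R) ≤ n := by
    have : N1 * R = 8 * ((D * M + 3 * M * c) * R) + R := by rw [hN1]; ring
    omega
  have h5 : 2 * M * c * (cL + cH) ≤ 4 * M * c * N1 := by
    have : 4 * M * c * N1 = 2 * M * c * (2 * N1) := by ring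
    rw [this]
    apply Nat.mul_le_mul_left
    omega
  have h6 : D * (R * M + (n / A + A * X) + 1) + (3 * (R * M) + M) * c =
      (D * M + 3 * M * c) * R + D * (n / A) + D * (A * X) + D + M * c := by ring
  rw [add_assoc, h6] at h2
  omega

end

theorem b : S_B := by
  intro k G _ μ S M H
  classical
  have hk := H.two_le
  have hM := H.pos
  obtain ⟨I, X, _, hIX⟩ := H.exists_letter_bound
  obtain ⟨D, hD⟩ := log k G μ S M H I
  set c := wlen S (μ.el 0 1) with hc
  obtain ⟨N1, N2, hN1, hN⟩ := num_bound M c D X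
  refine ⟨max N1 N2, ?_⟩
  intro w hw hgeo h0
  rw [card_filter_eq w (fun h => h = h0)]
  set l := lev μ 0 w with hl
  -- counts of the blocks
  set cc : ℤ → ℕ := fun j => l.countP (fun h => j * M ≤ h ∧ h < j * M + M) with hcc
  set j0 : ℤ := h0 / M with hj0
  have hM0 : (0 : ℤ) < M := by omega
  have hle : l.countP (fun h => h = h0) ≤ cc j0 := by
    apply List.countP_mono_left
    intro x _ hx
    simp only [decide_eq_true_eq] at hx ⊢
    subst hx
    have h1 := Int.emod_add_mul_ediv x M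
    have h2 := Int.emod_nonneg x hM0.ne'
    have h3 := Int.emod_lt_of_pos x hM0
    rw [hj0]
    constructor <;> nlinarith
  by_cases hbig : cc j0 < N1
  · exact (hle.trans hbig.le).trans (le_max_left _ _)
  push Not at hbig
  refine (hle.trans ?_).trans (le_max_right _ _)
  obtain ⟨B, hB⟩ := exists_abs_bound l
  have hzero : ∀ j : ℤ, (B : ℤ) < |j| → cc j = 0 := by
    intro j hj
    apply countP_eq_zero_of
    rintro x hx ⟨h1, h2⟩
    have h3 := hB x hx
    rw [abs_le] at h3
    rcases abs_cases j with ⟨h4, h5⟩ | ⟨h4, h5⟩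
    · rw [h4] at hj
      nlinarith
    · rw [h4] at hj
      nlinarith
  have hup : ∃ n : ℕ, cc (j0 + n) < N1 := by
    refine ⟨B + j0.natAbs + 1, ?_⟩
    rw [hzero]
    · omega
    · push_cast
      rcases abs_cases j0 with ⟨h4, h5⟩ | ⟨h4, h5⟩ <;> rw [h4] <;> rw [abs_of_pos] <;> omega
  have hdn : ∃ n : ℕ, cc (j0 - n) < N1 := by
    refine ⟨B + j0.natAbs + 1, ?_⟩
    rw [hzero]
    · omega
    · push_cast
      rcases abs_cases j0 with ⟨h4, h5⟩ | ⟨h4, h5⟩ <;> rw [h4] <;> rw [abs_of_neg] <;> omega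
  set nB := Nat.find hup with hnB
  set nA := Nat.find hdn with hnA
  have hB1 : cc (j0 + nB) < N1 := Nat.find_spec hup
  have hA1 : cc (j0 - nA) < N1 := Nat.find_spec hdn
  have hB2 : ∀ i < nB, N1 ≤ cc (j0 + i) := fun i hi => not_lt.1 (Nat.find_min hup hi)
  have hA2 : ∀ i < nA, N1 ≤ cc (j0 - i) := fun i hi => not_lt.1 (Nat.find_min hdn hi)
  have hB0 : 1 ≤ nB := by
    by_contra hcon
    have : nB = 0 := by omega
    rw [this] at hB1
    simp at hB1
    omega
  have hA0 : 1 ≤ nA := by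
    by_contra hcon
    have : nA = 0 := by omega
    rw [this] at hA1
    simp at hA1
    omega
  set A : ℤ := j0 - nA + 1 with hA
  set R : ℕ := nA + nB - 1 with hR
  have hblocks : ∀ i : ℕ, i < R → N1 ≤ cc (A + i) := by
    intro i hi
    by_cases h1 : i < nA
    · have := hA2 (nA - 1 - i) (by omega)
      have h2 : j0 - ((nA - 1 - i : ℕ) : ℤ) = A + i := by omega
      rwa [h2] at this
    · have := hB2 (i + 1 - nA) (by omega)
      have h2 : j0 + ((i + 1 - nA : ℕ) : ℤ) = A + i := by omega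
      rwa [h2] at this
  have hsum : ∀ r : ℕ, r ≤ R → N1 * r ≤ l.countP (fun h => A * M ≤ h ∧ h < A * M + (r * M : ℕ)) := by
    intro r
    induction r with
    | zero => intro _; simp
    | succ r ih =>
      intro hr
      have h1 := ih (by omega)
      have h2 := hblocks r (by omega)
      rw [countP_add l (A * M) (A * M + (r * M : ℕ)) (A * M + ((r + 1) * M : ℕ))
        (by have : (0 : ℤ) ≤ ((r * M : ℕ) : ℤ) := by positivity
            linarith) (by push_cast; nlinarith)]
      have h3 : cc (A + r) = l.countP (fun h => A * M + (r * M : ℕ) ≤ h ∧ h < A * M + ((r + 1) * M : ℕ)) := by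
        simp only [hcc]
        congr 1
        funext h
        have e1 : (A + r) * (M : ℤ) = A * M + (r * M : ℕ) := by push_cast; ring
        have e2 : (A + r) * (M : ℤ) + M = A * M + ((r + 1) * M : ℕ) := by push_cast; ring
        rw [e2, e1]
      rw [← h3]
      calc N1 * (r + 1) = N1 * r + N1 := by ring
        _ ≤ _ := add_le_add h1 h2
  have hwin := hsum R le_rfl
  -- the block `j0` is in the window
  have hj0in : cc j0 ≤ l.countP (fun h => A * M ≤ h ∧ h < A * M + (R * M : ℕ)) := by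
    apply List.countP_mono_left
    intro x _ hx
    simp only [decide_eq_true_eq] at hx ⊢
    have e1 : A * (M : ℤ) ≤ j0 * M := mul_le_mul_of_nonneg_right (by omega) hM0.le
    have e2 : j0 * (M : ℤ) + M ≤ A * M + (R * M : ℕ) := by
      have : j0 + 1 ≤ A + R := by omega
      have h3 := mul_le_mul_of_nonneg_right this hM0.le
      push_cast
      linarith
    omega
  -- enter the window
  obtain ⟨w1, w2, q1, q2, q3⟩ := split_run (μ := μ) (fun h => ¬ (A * M ≤ h ∧ h < A * M + (R * M : ℕ))) w 0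
  have hw1z : (lev μ 0 w1).countP (fun h => A * M ≤ h ∧ h < A * M + (R * M : ℕ)) = 0 :=
    countP_eq_zero_of q2
  have hcount : ∀ p : ℤ → Prop, ∀ [DecidablePred p], (lev μ (0 + μ.m w1.prod) w2).countP (fun h => p h) ≤ l.countP (fun h => p h) := by
    intro p _
    rw [hl, q1, lev_append, List.countP_append]
    omega
  have hw2c : l.countP (fun h => A * M ≤ h ∧ h < A * M + (R * M : ℕ)) =
      (lev μ (0 + μ.m w1.prod) w2).countP (fun h => A * M ≤ h ∧ h < A * M + (R * M : ℕ)) := by
    rw [hl, q1, lev_append, List.countP_append, hw1z, zero_add]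
  have hent : A * M ≤ 0 + μ.m w1.prod ∧ 0 + μ.m w1.prod < A * M + (R * M : ℕ) := by
    rcases q3 with q3 | q3
    · exfalso
      subst q3
      rw [lev_nil, List.countP_nil] at hw2c
      omega
    · exact not_not.1 q3
  have hw2 : IsWord S w2 := fun s hs => hw s (by rw [q1]; simp [hs])
  have hgeo2 : w2.length = wlen S w2.prod := by
    have := geod_drop H.gen hw hgeo w1.length
    rw [q1, List.drop_left' rfl] at this
    exact this
  have hRM : M ≤ R * M := by
    have : 1 ≤ R := by omega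
    nlinarith
  have hfin := H.window hIX hD (A * M) (R * M) hRM w2 (0 + μ.m w1.prod) hw2 hgeo2 hent.1 hent.2
  rw [← hw2c] at hfin
  refine hj0in.trans ?_
  refine hN _ R ((lev μ (0 + μ.m w1.prod) w2).countP (fun h => A * M - M ≤ h ∧ h < A * M))
    ((lev μ (0 + μ.m w1.prod) w2).countP (fun h => A * M + (R * M : ℕ) ≤ h ∧ h < A * M + (R * M : ℕ) + M))
    hwin ?_ ?_ (by omega) ?_
  · refine lt_of_le_of_lt (hcount _) ?_
    have h3 : cc (j0 - nA) = l.countP (fun h => A * M - M ≤ h ∧ h < A * M) := by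
      simp only [hcc]
      congr 1
      funext h
      have e1 : (j0 - nA) * (M : ℤ) = A * M - M := by rw [hA]; ring
      rw [e1, sub_add_cancel]
    rw [← h3]
    exact hA1
  · refine lt_of_le_of_lt (hcount _) ?_
    have h3 : cc (j0 + nB) = l.countP (fun h => A * M + (R * M : ℕ) ≤ h ∧ h < A * M + (R * M : ℕ) + M) := by
      simp only [hcc]
      congr 1
      funext h
      have e1 : (j0 + nB) * (M : ℤ) = A * M + (R * M : ℕ) := by
        have : ((R : ℕ) : ℤ) = nA + nB - 1 := by omega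
        push_cast
        rw [this, hA]; ring
      rw [e1]
    rw [← h3]
    exact hB1
  · intro s hs
    refine (hfin s (hs.trans (Nat.pow_le_pow_left hk s))).trans (le_of_eq ?_)
    rfl

end Pool.Agent.Q281.BSG
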