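import Pool.Agent.Q281.BSG.B

set_option autoImplicit false

/-!
# Conjugacy growth of `BS(1,k)`: job C, the cut lemma
-/

namespace Pool.Agent.Q281.BSG

section

variable {k : ℕ} {G : Type} [Group G] {μ : Model k G} {S : Set G} {M : ℕ}

/-- total contribution of the letters below level `p` -/
noncomputable def lowS (μ : Model k G) (p : ℤ) : ℤ → List G → ℚ
  | _, [] => 0
  | e, s :: l => (if e < p then (k : ℚ) ^ e * μ.x s else 0) + lowS μ p (e + μ.m s) l

/-- total contribution of the letters of level at least `p` -/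
noncomputable def highS (μ : Model k G) (p : ℤ) : ℤ → List G → ℚ
  | _, [] => 0
  | e, s :: l => (if e < p then 0 else (k : ℚ) ^ e * μ.x s) + highS μ p (e + μ.m s) l

theorem low_add_high (hk : 2 ≤ k) (p : ℤ) (w : List G) (e : ℤ) :
    lowS μ p e w + highS μ p e w = (k : ℚ) ^ e * μ.x w.prod := by
  have hk0 : (k : ℚ) ≠ 0 := by positivity
  induction w generalizing e with
  | nil => simp [lowS, highS, μ.x_one]
  | cons s l ih =>
    rw [lowS, highS, List.prod_cons, μ.x_mul, mul_add, ← mul_assoc, ← zpow_add₀ hk0, ← ih]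
    split_ifs <;> ring

theorem Hyp.highS_den (H : Hyp μ S M) {I X : ℕ}
    (hIX : ∀ s : G, (s ∈ S ∨ s⁻¹ ∈ S) → |μ.x s| ≤ X ∧ ∃ n : ℤ, μ.x s = n / (k : ℚ) ^ I)
    (p : ℤ) (w : List G) (hw : IsWord S w) (e : ℤ) :
    ∃ n : ℤ, highS μ p e w = (k : ℚ) ^ p * (n / (k : ℚ) ^ I) := by
  have hk := H.two_le
  have hk0 : (k : ℚ) ≠ 0 := by positivity
  induction w generalizing e with
  | nil => exact ⟨0, by simp [highS]⟩
  | cons s l ih =>
    obtain ⟨n, hn⟩ := ih (fun t ht => hw t (by simp [ht])) (e + μ.m s)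
    obtain ⟨_, m, hm⟩ := hIX s (hw s (by simp))
    by_cases h : e < p
    · exact ⟨n, by rw [highS, if_pos h, hn, zero_add]⟩
    · obtain ⟨j, hj⟩ := Int.eq_ofNat_of_zero_le (sub_nonneg.2 (not_lt.1 h))
      refine ⟨m * k ^ j + n, ?_⟩
      rw [highS, if_neg h, hn, hm]
      have : e = p + j := by omega
      rw [this, zpow_add₀ hk0, zpow_natCast]
      push_cast
      ring

theorem Hyp.lowS_le (H : Hyp μ S M) {I X : ℕ}
    (hIX : ∀ s : G, (s ∈ S ∨ s⁻¹ ∈ S) → |μ.x s| ≤ X ∧ ∃ n : ℤ, μ.x s = n / (k : ℚ) ^ I)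
    (p : ℤ) (w : List G) (hw : IsWord S w) (e : ℤ) :
    |lowS μ p e w| ≤ X * ((lev μ e w).map (fun h => if h < p then (k : ℚ) ^ h else 0)).sum := by
  have hk := H.two_le
  have hkp : (0 : ℚ) < k := by positivity
  induction w generalizing e with
  | nil => simp [lowS, lev_nil]
  | cons s l ih =>
    have h1 := ih (fun t ht => hw t (by simp [ht])) (e + μ.m s)
    obtain ⟨h2, _⟩ := hIX s (hw s (by simp))
    rw [lowS, lev_cons, List.map_cons, List.sum_cons, mul_add]
    refine (abs_add_le _ _).trans (add_le_add ?_ h1)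
    split_ifs with h
    · rw [abs_mul, abs_of_pos (zpow_pos hkp _), mul_comm]
      exact mul_le_mul_of_nonneg_right h2 (zpow_pos hkp _).le
    · simp

/-- a list of levels in which every level occurs at most `N` times: the sum of the powers below level `p` -/
theorem sum_pow_le (hk : 2 ≤ k) (p : ℤ) (N : ℕ) (l : List ℤ) (hl : ∀ h, l.countP (fun x => x = h) ≤ N) :
    (l.map (fun h => if h < p then (k : ℚ) ^ h else 0)).sum ≤ N * (k : ℚ) ^ p := by
  have hkp : (0 : ℚ) < k := by positivity
  have hk0 : (k : ℚ) ≠ 0 := hkp.ne'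
  have hk2 : (2 : ℚ) ≤ k := by exact_mod_cast hk
  -- count the levels `p-1, ..., p-r`
  have key : ∀ r : ℕ, ∀ l : List ℤ, (∀ h, l.countP (fun x => x = h) ≤ N) → (∀ h ∈ l, p - r ≤ h) →
      (l.map (fun h => if h < p then (k : ℚ) ^ h else 0)).sum ≤ N * ((k : ℚ) ^ p - (k : ℚ) ^ (p - r)) := by
    intro r
    induction r with
    | zero =>
      intro l _ hl2
      have : (l.map (fun h => if h < p then (k : ℚ) ^ h else 0)).sum = 0 := by
        apply List.sum_eq_zero
        intro x hx
        obtain ⟨h, hh, rfl⟩ := List.mem_map.1 hx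
        have := hl2 h hh
        rw [if_neg (by push_cast at this; omega)]
      rw [this]
      simp
    | succ r ih =>
      intro l hl1 hl2
      have h1 := ih (l.filter (fun h => p - r ≤ h)) (by
        intro h
        refine le_trans ?_ (hl1 h)
        rw [List.countP_filter]
        apply List.countP_mono_left
        intro x _ hx
        simp only [Bool.and_eq_true, decide_eq_true_eq] at hx ⊢
        exact hx.1) (by
        intro h hh
        simpa using (List.mem_filter.1 hh).2)
      have h2 : (l.map (fun h => if h < p then (k : ℚ) ^ h else 0)).sum =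
          ((l.filter (fun h => p - r ≤ h)).map (fun h => if h < p then (k : ℚ) ^ h else 0)).sum +
          l.countP (fun x => x = p - (r + 1)) * (k : ℚ) ^ (p - (r + 1)) := by
        clear hl1 h1
        induction l with
        | nil => simp
        | cons a l ih2 =>
          have h3 := ih2 (fun h hh => hl2 h (by simp [hh]))
          have h4 := hl2 a (by simp)
          push_cast at h4
          rw [List.map_cons, List.sum_cons, h3]
          by_cases h5 : p - r ≤ a
          · rw [List.filter_cons_of_pos (by simpa using h5), List.map_cons, List.sum_cons,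
              List.countP_cons_of_neg (by simp; omega)]
            ring
          · have h6 : a = p - (r + 1) := by omega
            rw [List.filter_cons_of_neg (by simpa using h5), List.countP_cons_of_pos (by simpa using h6), if_pos (by omega), h6]
            push_cast
            ring
      rw [h2]
      have h3 : (l.countP (fun x => x = p - (r + 1)) : ℚ) ≤ N := by exact_mod_cast hl1 _
      have h4 : (0 : ℚ) < (k : ℚ) ^ (p - (r + 1)) := zpow_pos hkp _
      have h5 : (k : ℚ) ^ (p - r) = k * (k : ℚ) ^ (p - (r + 1)) := by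
        rw [← zpow_one_add₀ hk0]; congr 1; ring
      have h6 : (l.countP (fun x => x = p - (r + 1)) : ℚ) * (k : ℚ) ^ (p - (r + 1)) ≤ N * (k : ℚ) ^ (p - (r + 1)) :=
        mul_le_mul_of_nonneg_right h3 h4.le
      have h7 : (N : ℚ) * (k : ℚ) ^ (p - (r + 1)) ≤ N * ((k : ℚ) ^ (p - r) - (k : ℚ) ^ (p - (r + 1))) := by
        apply mul_le_mul_of_nonneg_left _ (Nat.cast_nonneg N)
        rw [h5]
        nlinarith
      push_cast
      calc _ ≤ N * ((k : ℚ) ^ p - (k : ℚ) ^ (p - r)) + N * (k : ℚ) ^ (p - (r + 1)) := add_le_add h1 h6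
        _ ≤ N * ((k : ℚ) ^ p - (k : ℚ) ^ (p - r)) + N * ((k : ℚ) ^ (p - r) - (k : ℚ) ^ (p - (r + 1))) := by linarith
        _ = _ := by ring
  obtain ⟨B, hB⟩ : ∃ B : ℕ, ∀ h ∈ l, |h| ≤ B := by
    clear hl key
    induction l with
    | nil => exact ⟨0, by simp⟩
    | cons a l ih =>
      obtain ⟨B, hB⟩ := ih
      refine ⟨B + a.natAbs, ?_⟩
      intro h hh
      rcases List.mem_cons.1 hh with rfl | hh
      · push_cast; linarith
      · have h1 := hB h hh
        push_cast
        have h2 : (0 : ℤ) ≤ |a| := abs_nonneg a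
        linarith
  have := key (B + p.natAbs) l hl (by
    intro h hh
    have h1 := hB h hh
    rw [abs_le] at h1
    push_cast
    have := le_abs_self p
    linarith)
  refine this.trans ?_
  apply mul_le_mul_of_nonneg_left _ (Nat.cast_nonneg N)
  have : (0 : ℚ) < (k : ℚ) ^ (p - ((B + p.natAbs : ℕ) : ℤ)) := zpow_pos hkp _
  linarith

/-- splitting a word at level `p` -/
theorem Hyp.split (H : Hyp μ S M) (p : ℤ) (w : List G) (hw : IsWord S w) (e : ℤ) :
    ∃ A B : G, μ.m A = min (e + μ.m w.prod) p - min e p ∧ μ.m B = max (e + μ.m w.prod) p - max e p ∧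
      (k : ℚ) ^ min e p * μ.x A = lowS μ p e w ∧ (k : ℚ) ^ max e p * μ.x B = highS μ p e w ∧
      wlen S A + wlen S B ≤ w.length + 2 * M * wlen S (μ.el 0 1) * (lev μ e w).countP (fun h => p - M ≤ h ∧ h < p + M) := by
  have hk := H.two_le
  have hk0 : (k : ℚ) ≠ 0 := by positivity
  induction w generalizing e with
  | nil => exact ⟨1, 1, by simp [μ.m_one], by simp [μ.m_one], by simp [μ.x_one, lowS], by simp [μ.x_one, highS], by simp [wlen_one]⟩
  | cons s l ih =>
    obtain ⟨A, B, a1, a2, a3, a4, a5⟩ := ih (fun t ht => hw t (by simp [ht])) (e + μ.m s)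
    have hsl : wlen S s ≤ 1 := by
      have := wlen_le (S := S) (w := [s]) (fun t ht => by
        rw [List.mem_singleton] at ht
        subst ht
        exact hw t (by simp))
      simpa using this
    have hsM := H.letter (hw s (by simp))
    rw [abs_le] at hsM
    set c := wlen S (μ.el 0 1) with hc
    by_cases he : e < p
    · -- low letter
      have c1 := wlen_mul_le H.gen s (μ.el 0 (min (e + μ.m s) p - (e + μ.m s)) * A)
      have c2 := wlen_mul_le H.gen (μ.el 0 (min (e + μ.m s) p - (e + μ.m s))) A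
      have c3 := wlen_mul_le H.gen (μ.el 0 (max (e + μ.m s) p - p)) B
      have c4 := H.conn_le (min (e + μ.m s) p - (e + μ.m s))
      have c5 := H.conn_le (max (e + μ.m s) p - p)
      rw [← hc] at c4 c5
      refine ⟨s * (μ.el 0 (min (e + μ.m s) p - (e + μ.m s)) * A), μ.el 0 (max (e + μ.m s) p - p) * B, ?_, ?_, ?_, ?_, ?_⟩
      · rw [μ.m_mul, μ.m_mul, μ.m_el, a1, List.prod_cons, μ.m_mul, min_eq_left he.le]
        rw [add_assoc e]
        ring
      · rw [μ.m_mul, μ.m_el, a2, List.prod_cons, μ.m_mul, max_eq_right he.le]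
        rw [add_assoc e]
        ring
      · rw [lowS, if_pos he, ← a3, μ.x_mul, μ.x_mul, μ.x_el, μ.m_el, min_eq_left he.le]
        simp only [Int.cast_zero, zero_add]
        rw [mul_add, ← mul_assoc, ← mul_assoc, ← zpow_add₀ hk0, ← zpow_add₀ hk0]
        congr 3
        ring
      · rw [highS, if_pos he, ← a4, μ.x_mul, μ.x_el, μ.m_el, max_eq_right he.le]
        simp only [Int.cast_zero, zero_add]
        rw [← mul_assoc, ← zpow_add₀ hk0]
        congr 2
        ring
      · rw [List.length_cons, lev_cons, List.countP_cons]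
        by_cases hcr : e + μ.m s < p
        · have e1 : (min (e + μ.m s) p - (e + μ.m s)).natAbs = 0 := by rw [min_eq_left hcr.le]; simp
          have e2 : (max (e + μ.m s) p - p).natAbs = 0 := by rw [max_eq_right hcr.le]; simp
          rw [e1, zero_mul] at c4
          rw [e2, zero_mul] at c5
          rw [mul_add]
          omega
        · have e1 : (min (e + μ.m s) p - (e + μ.m s)).natAbs ≤ M := by
            rw [min_eq_right (not_lt.1 hcr)]; omega
          have e2 : (max (e + μ.m s) p - p).natAbs ≤ M := by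
            rw [max_eq_left (not_lt.1 hcr)]; omega
          have e3 := Nat.mul_le_mul_right c e1
          have e4 := Nat.mul_le_mul_right c e2
          rw [if_pos (by simp; omega), mul_add]
          have e5 : 2 * M * c * 1 = M * c + M * c := by ring
          omega
    · -- high letter
      have hpe : p ≤ e := not_lt.1 he
      have c1 := wlen_mul_le H.gen s (μ.el 0 (max (e + μ.m s) p - (e + μ.m s)) * B)
      have c2 := wlen_mul_le H.gen (μ.el 0 (max (e + μ.m s) p - (e + μ.m s))) B
      have c3 := wlen_mul_le H.gen (μ.el 0 (min (e + μ.m s) p - p)) A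
      have c4 := H.conn_le (max (e + μ.m s) p - (e + μ.m s))
      have c5 := H.conn_le (min (e + μ.m s) p - p)
      rw [← hc] at c4 c5
      refine ⟨μ.el 0 (min (e + μ.m s) p - p) * A, s * (μ.el 0 (max (e + μ.m s) p - (e + μ.m s)) * B), ?_, ?_, ?_, ?_, ?_⟩
      · rw [μ.m_mul, μ.m_el, a1, List.prod_cons, μ.m_mul, min_eq_right hpe]
        rw [add_assoc e]
        ring
      · rw [μ.m_mul, μ.m_mul, μ.m_el, a2, List.prod_cons, μ.m_mul, max_eq_left hpe]
        rw [add_assoc e]
        ring
      · rw [lowS, if_neg he, ← a3, μ.x_mul, μ.x_el, μ.m_el, min_eq_right hpe]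
        simp only [Int.cast_zero, zero_add]
        rw [← mul_assoc, ← zpow_add₀ hk0]
        congr 2
        ring
      · rw [highS, if_neg he, ← a4, μ.x_mul, μ.x_mul, μ.x_el, μ.m_el, max_eq_left hpe]
        simp only [Int.cast_zero, zero_add]
        rw [mul_add, ← mul_assoc, ← mul_assoc, ← zpow_add₀ hk0, ← zpow_add₀ hk0]
        congr 3
        ring
      · rw [List.length_cons, lev_cons, List.countP_cons]
        by_cases hcr : p ≤ e + μ.m s
        · have e1 : (max (e + μ.m s) p - (e + μ.m s)).natAbs = 0 := by rw [max_eq_left hcr]; simp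
          have e2 : (min (e + μ.m s) p - p).natAbs = 0 := by rw [min_eq_right hcr]; simp
          rw [e1, zero_mul] at c4
          rw [e2, zero_mul] at c5
          rw [mul_add]
          omega
        · have e1 : (max (e + μ.m s) p - (e + μ.m s)).natAbs ≤ M := by
            rw [max_eq_right (not_le.1 hcr).le]; omega
          have e2 : (min (e + μ.m s) p - p).natAbs ≤ M := by
            rw [min_eq_left (not_le.1 hcr).le]; omega
          have e3 := Nat.mul_le_mul_right c e1
          have e4 := Nat.mul_le_mul_right c e2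
          rw [if_pos (by simp; omega), mul_add]
          have e5 : 2 * M * c * 1 = M * c + M * c := by ring
          omega

/-- if every level is visited at most `N` times then a range of `n` levels is visited at most `n N` times -/
theorem countP_range_le (l : List ℤ) (N : ℕ) (hl : ∀ h, l.countP (fun x => x = h) ≤ N) (a : ℤ) (n : ℕ) :
    l.countP (fun h => a ≤ h ∧ h < a + n) ≤ n * N := by
  induction n with
  | zero =>
    have : l.countP (fun h => a ≤ h ∧ h < a + (0 : ℕ)) = 0 := by
      rw [List.countP_eq_zero]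
      intro x _
      simp
    omega
  | succ n ih =>
    rw [countP_add l a (a + n) (a + (n + 1 : ℕ)) (by omega) (by push_cast; omega)]
    have h1 : l.countP (fun h => a + n ≤ h ∧ h < a + (n + 1 : ℕ)) ≤ l.countP (fun x => x = a + n) := by
      apply List.countP_mono_left
      intro x _ hx
      simp only [decide_eq_true_eq] at hx ⊢
      push_cast at hx
      omega
    calc _ ≤ n * N + N := add_le_add ih (h1.trans (hl _))
      _ = (n + 1) * N := by ring

/-- a bounded part of `k^{-I} ℤ` costs a bounded amount -/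
theorem Hyp.exists_cost (H : Hyp μ S M) (I B : ℕ) :
    ∃ C : ℕ, ∀ (g : G) (y : ℤ), μ.m g = 0 → μ.x g = y / (k : ℚ) ^ I → |μ.x g| ≤ B → wlen S g ≤ C := by
  have hk := H.two_le
  obtain ⟨D, hD⟩ := log k G μ S M H I
  refine ⟨D * (B + 1), fun g y h1 h2 h3 => hD B g y h1 h2 (h3.trans ?_)⟩
  have : B ≤ k ^ B := (Nat.lt_two_pow_self.le).trans (Nat.pow_le_pow_left hk B)
  exact_mod_cast this

end

theorem c (hB : S_B) : S_C := by
  intro k G _ μ S M H
  classical
  have hk := H.two_le
  have hk0 : (k : ℚ) ≠ 0 := by positivity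
  have hkp : (0 : ℚ) < k := by positivity
  obtain ⟨I, X, hX1, hIX⟩ := H.exists_letter_bound
  obtain ⟨N, hN⟩ := hB k G μ S M H
  obtain ⟨C, hC⟩ := H.exists_cost I (X * N + 1)
  refine ⟨2 * M * wlen S (μ.el 0 1) * (2 * M * N) + 2 * C, ?_⟩
  intro p q u v g h hgm hhm hgx hhx hu
  obtain ⟨w, hw, hwp, hwl⟩ := exists_geod H.gen (g * h)
  have hgeo : w.length = wlen S w.prod := by rw [hwp, hwl]
  have hvis : ∀ h0 : ℤ, (lev μ 0 w).countP (fun x => x = h0) ≤ N := by
    intro h0
    have := hN w hw hgeo h0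
    rwa [card_filter_eq w (fun h => h = h0)] at this
  obtain ⟨A, B, a1, a2, a3, a4, a5⟩ := H.split (p : ℤ) w hw 0
  have hwm : μ.m w.prod = p + q := by rw [hwp, μ.m_mul, hgm, hhm]
  have hwx : μ.x w.prod = u + (k : ℚ) ^ p * v := by rw [hwp, μ.x_mul, hgx, hhx, hgm, zpow_natCast]
  have hp0 : min (0 : ℤ) p = 0 := min_eq_left (by positivity)
  have hp1 : max (0 : ℤ) p = p := max_eq_right (by positivity)
  rw [zero_add, hwm, hp0, min_eq_right (by omega), sub_zero] at a1
  rw [zero_add, hwm, hp1, max_eq_left (by omega)] at a2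
  rw [hp0, zpow_zero, one_mul] at a3
  rw [hp1, zpow_natCast] at a4
  have hsum := low_add_high (μ := μ) hk p w 0
  rw [← a3, ← a4, zpow_zero, one_mul, hwx] at hsum
  obtain ⟨n, hn⟩ := H.highS_den hIX p w hw 0
  rw [← a4, zpow_natCast] at hn
  have hkpp : (0 : ℚ) < (k : ℚ) ^ p := by positivity
  have hxB : μ.x B = n / (k : ℚ) ^ I := mul_left_cancel₀ hkpp.ne' hn
  have hlow : |μ.x A| ≤ X * (N * (k : ℚ) ^ p) := by
    rw [a3]
    refine (H.lowS_le hIX p w hw 0).trans ?_
    have := sum_pow_le hk p N (lev μ 0 w) hvis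
    rw [zpow_natCast] at this
    exact mul_le_mul_of_nonneg_left this (Nat.cast_nonneg X)
  -- the correction
  obtain ⟨E, hE1, hE2⟩ := μ.surj I (v * k ^ I - n) 0
  have hEx : μ.x E = v - μ.x B := by
    rw [hE1, hxB]; push_cast; field_simp
  have hEx2 : (k : ℚ) ^ p * μ.x E = μ.x A - u := by
    rw [hEx]; linarith
  have hcost : wlen S E ≤ C := by
    refine hC E (v * k ^ I - n) hE2 hE1 ?_
    have h1 : (k : ℚ) ^ p * |μ.x E| ≤ (k : ℚ) ^ p * ((X * N + 1 : ℕ) : ℚ) := by
      calc (k : ℚ) ^ p * |μ.x E| = |(k : ℚ) ^ p * μ.x E| := by rw [abs_mul, abs_of_pos hkpp]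
        _ = |μ.x A - u| := by rw [hEx2]
        _ ≤ |μ.x A| + |(u : ℚ)| := abs_sub _ _
        _ ≤ X * (N * (k : ℚ) ^ p) + (k : ℚ) ^ p := add_le_add hlow (by exact_mod_cast hu)
        _ = _ := by push_cast; ring
    exact le_of_mul_le_mul_left h1 hkpp
  have hg : g = A * E⁻¹ := by
    refine μ.ext _ _ ?_ ?_
    · rw [μ.x_mul, μ.x_inv, hE2, a1, zpow_natCast, hgx]
      simp
      linarith
    · rw [μ.m_mul, μ.m_inv, hE2, a1, hgm]; ring
  have hh : h = E * B := by
    refine μ.ext _ _ ?_ ?_
    · rw [μ.x_mul, hE2, zpow_zero, one_mul, hEx, hhx]; ring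
    · rw [μ.m_mul, hE2, a2, hhm]; ring
  have w1 := wlen_mul_le H.gen A E⁻¹
  have w2 := wlen_mul_le H.gen E B
  rw [wlen_inv H.gen] at w1
  rw [← hg] at w1
  rw [← hh] at w2
  have w3 : (lev μ 0 w).countP (fun h => (p : ℤ) - M ≤ h ∧ h < p + M) ≤ 2 * M * N := by
    have := countP_range_le (lev μ 0 w) N hvis (p - M) (2 * M)
    have e1 : (p : ℤ) - M + (2 * M : ℕ) = p + M := by push_cast; ring
    rw [e1] at this
    exact this
  have w4 := Nat.mul_le_mul_left (2 * M * wlen S (μ.el 0 1)) w3
  rw [← hwp, ← hgeo]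
  omega

end Pool.Agent.Q281.BSG
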