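import Pool.Agent.Q281.BSG.Log

set_option autoImplicit false

/-!
# Conjugacy growth of `BS(1,k)`: the classes of positive exponent, job LOW
-/

namespace Pool.Agent.Q281.BSG

section

variable {k : ℕ} {G : Type} [Group G] {μ : Model k G} {S : Set G} {M : ℕ}

theorem conj_shift (hk : 2 ≤ k) (u : ℤ) (m : ℤ) (j : ℕ) : IsConj (μ.el u m) (μ.el (k ^ j * u) m) := by
  refine isConj_iff.2 ⟨μ.el 0 j, μ.eq_el ?_ ?_⟩
  · rw [μ.x_conj hk, μ.x_el, μ.x_el, μ.m_el, μ.m_el, zpow_natCast]; push_cast; ring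
  · rw [μ.m_conj, μ.m_el]

theorem conj_mod (hk : 2 ≤ k) (u v : ℤ) (m : ℕ) (h : (k : ℤ) ^ m - 1 ∣ u - v) : IsConj (μ.el u m) (μ.el v m) := by
  obtain ⟨y, hy⟩ := h
  refine isConj_iff.2 ⟨μ.el y 0, μ.eq_el ?_ ?_⟩
  · rw [μ.x_conj hk, μ.x_el, μ.x_el, μ.m_el, μ.m_el, zpow_zero, zpow_natCast]
    have : v = u - ((k : ℤ) ^ m - 1) * y := by linarith
    rw [this]; push_cast; ring
  · rw [μ.m_conj, μ.m_el]

theorem conj_rep (hk : 2 ≤ k) {m : ℕ} (hm : 1 ≤ m) (g : G) (hg : μ.m g = m) :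
    ∃ u : ℕ, u < k ^ m - 1 ∧ IsConj g (μ.el u m) := by
  have hk0 : (k : ℚ) ≠ 0 := by positivity
  obtain ⟨i, n, hn⟩ := μ.den g
  have hQ : 1 < k ^ m := Nat.one_lt_pow (by omega) (by omega)
  have hQ' : ((k ^ m - 1 : ℕ) : ℤ) = (k : ℤ) ^ m - 1 := by
    rw [Nat.cast_sub hQ.le]; push_cast; rfl
  have hQ0 : (0 : ℤ) < (k : ℤ) ^ m - 1 := by rw [← hQ']; exact_mod_cast (by omega : 0 < k ^ m - 1)
  obtain ⟨u, hu⟩ := Int.eq_ofNat_of_zero_le (Int.emod_nonneg n hQ0.ne')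
  refine ⟨u, ?_, ?_⟩
  · have := Int.emod_lt_of_pos n hQ0
    rw [hu, ← hQ'] at this
    exact_mod_cast this
  · have h1 : IsConj g (μ.el n m) := by
      refine isConj_iff.2 ⟨μ.el 0 i, μ.eq_el ?_ ?_⟩
      · rw [μ.x_conj hk, μ.x_el, μ.m_el, zpow_natCast, hn]; push_cast; field_simp; ring
      · rw [μ.m_conj, hg]
    refine h1.trans (conj_mod hk _ _ _ ?_)
    have h2 := Int.emod_add_mul_ediv n ((k : ℤ) ^ m - 1)
    refine ⟨n / ((k : ℤ) ^ m - 1), ?_⟩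
    rw [← hu]; linarith

theorem pow_modEq (m j : ℕ) : (k : ℤ) ^ j ≡ (k : ℤ) ^ (j % m) [ZMOD (k : ℤ) ^ m - 1] := by
  have h1 : (k : ℤ) ^ m ≡ 1 [ZMOD (k : ℤ) ^ m - 1] := by
    rw [Int.modEq_iff_dvd]
    exact ⟨-1, by ring⟩
  have h2 : (k : ℤ) ^ j = ((k : ℤ) ^ m) ^ (j / m) * (k : ℤ) ^ (j % m) := by
    rw [← pow_mul, ← pow_add, Nat.div_add_mod]
  rw [h2]
  calc ((k : ℤ) ^ m) ^ (j / m) * (k : ℤ) ^ (j % m) ≡ 1 ^ (j / m) * (k : ℤ) ^ (j % m) [ZMOD (k : ℤ) ^ m - 1] :=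
        (h1.pow _).mul_right _
    _ = (k : ℤ) ^ (j % m) := by rw [one_pow, one_mul]

theorem conj_imp (hk : 2 ≤ k) {m : ℕ} (hm : 1 ≤ m) {u v : ℤ} (h : IsConj (μ.el u m) (μ.el v m)) :
    ∃ j < m, v ≡ (k : ℤ) ^ j * u [ZMOD (k : ℤ) ^ m - 1] := by
  have hk0 : (k : ℚ) ≠ 0 := by positivity
  obtain ⟨c, hc⟩ := isConj_iff.1 h
  obtain ⟨i, n, hn⟩ := μ.den c
  have h1 := μ.x_conj hk c (μ.el u m)
  rw [hc, μ.x_el, μ.x_el, μ.m_el, zpow_natCast, hn] at h1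
  -- multiply by `k ^ N`
  set j := μ.m c with hj
  set N : ℕ := i + j.natAbs with hN
  obtain ⟨a, ha⟩ := Int.eq_ofNat_of_zero_le (show 0 ≤ (N : ℤ) + j by omega)
  have h2 : (k : ℤ) ^ N * v = (k : ℤ) ^ j.natAbs * n * (1 - (k : ℤ) ^ m) + (k : ℤ) ^ a * u := by
    have h3 : (k : ℚ) ^ N * v = (k : ℚ) ^ j.natAbs * n * (1 - (k : ℚ) ^ m) + (k : ℚ) ^ a * u := by
      have e1 : (k : ℚ) ^ N * (k : ℚ) ^ j = (k : ℚ) ^ a := by
        rw [← zpow_natCast, ← zpow_add₀ hk0, ha]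
        exact zpow_natCast _ _
      have e2 : (k : ℚ) ^ N = (k : ℚ) ^ i * (k : ℚ) ^ j.natAbs := by rw [hN, pow_add]
      rw [← e1, h1, e2]
      field_simp
      ring
    exact_mod_cast h3
  have h4 : (k : ℤ) ^ N * v ≡ (k : ℤ) ^ a * u [ZMOD (k : ℤ) ^ m - 1] := by
    rw [h2, Int.modEq_iff_dvd]
    exact ⟨(k : ℤ) ^ j.natAbs * n, by ring⟩
  have h5 : (k : ℤ) ^ (N * (m - 1)) * ((k : ℤ) ^ N * v) ≡ (k : ℤ) ^ (N * (m - 1)) * ((k : ℤ) ^ a * u)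
      [ZMOD (k : ℤ) ^ m - 1] := h4.mul_left _
  have h6 : (k : ℤ) ^ (N * (m - 1)) * ((k : ℤ) ^ N * v) = (k : ℤ) ^ (N * m) * v := by
    rw [← mul_assoc, ← pow_add]
    congr 2
    obtain ⟨r, rfl⟩ := Nat.exists_eq_add_of_le hm
    simp only [Nat.add_sub_cancel_left]; ring
  have h7 : (k : ℤ) ^ (N * m) ≡ 1 [ZMOD (k : ℤ) ^ m - 1] := by
    have := pow_modEq (k := k) m (N * m)
    rwa [Nat.mul_mod_left, pow_zero] at this
  refine ⟨(N * (m - 1) + a) % m, Nat.mod_lt _ (by omega), ?_⟩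
  calc v = 1 * v := (one_mul v).symm
    _ ≡ (k : ℤ) ^ (N * m) * v [ZMOD (k : ℤ) ^ m - 1] := (h7.mul_right v).symm
    _ = (k : ℤ) ^ (N * (m - 1)) * ((k : ℤ) ^ N * v) := h6.symm
    _ ≡ (k : ℤ) ^ (N * (m - 1)) * ((k : ℤ) ^ a * u) [ZMOD (k : ℤ) ^ m - 1] := h5
    _ = (k : ℤ) ^ (N * (m - 1) + a) * u := by rw [pow_add]; ring
    _ ≡ (k : ℤ) ^ ((N * (m - 1) + a) % m) * u [ZMOD (k : ℤ) ^ m - 1] := (pow_modEq m _).mul_right u

/-- the class of `(u, m)` -/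
noncomputable def kap (μ : Model k G) (m u : ℕ) : ConjClasses G := ConjClasses.mk (μ.el u m)

theorem cm_kap (m u : ℕ) : μ.cm (kap μ m u) = m := by
  unfold kap
  rw [μ.cm_mk, μ.m_el]

theorem card_fiber_le (hk : 2 ≤ k) {m : ℕ} (hm : 1 ≤ m) (κ : ConjClasses G) [DecidableEq (ConjClasses G)] :
    ((Finset.range (k ^ m)).filter (fun u => kap μ m u = κ)).card ≤ m + 1 := by
  classical
  rcases Finset.eq_empty_or_nonempty ((Finset.range (k ^ m)).filter (fun u => kap μ m u = κ)) with h0 | ⟨u0, hu0⟩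
  · rw [h0]; simp
  rw [Finset.mem_filter, Finset.mem_range] at hu0
  have hQ : 1 < k ^ m := Nat.one_lt_pow (by omega) (by omega)
  have hQ' : ((k ^ m - 1 : ℕ) : ℤ) = (k : ℤ) ^ m - 1 := by
    rw [Nat.cast_sub hQ.le]; push_cast; rfl
  have hsub : (Finset.range (k ^ m)).filter (fun u => kap μ m u = κ) ⊆
      insert (k ^ m - 1) ((Finset.range m).image (fun j => (k ^ j * u0) % (k ^ m - 1))) := by
    intro u hu
    rw [Finset.mem_filter, Finset.mem_range] at hu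
    rw [Finset.mem_insert, Finset.mem_image]
    by_cases h1 : u = k ^ m - 1
    · exact Or.inl h1
    · right
      have h2 : IsConj (μ.el u0 m) (μ.el u m) := by
        rw [← ConjClasses.mk_eq_mk_iff_isConj]
        exact hu0.2.trans hu.2.symm
      obtain ⟨j, hj, h3⟩ := conj_imp hk hm h2
      refine ⟨j, Finset.mem_range.2 hj, ?_⟩
      have h4 : u ≡ k ^ j * u0 [MOD k ^ m - 1] := by
        rw [← Int.natCast_modEq_iff, hQ']
        push_cast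
        exact h3
      have h5 : u % (k ^ m - 1) = u := Nat.mod_eq_of_lt (by omega)
      rw [← h5]
      exact h4.symm
  calc _ ≤ _ := Finset.card_le_card hsub
    _ ≤ _ := Finset.card_insert_le _ _
    _ ≤ m + 1 := by
      have := Finset.card_image_le (s := Finset.range m) (f := fun j => (k ^ j * u0) % (k ^ m - 1))
      rw [Finset.card_range] at this
      omega

theorem ofReal_NN {L : ℕ → ℕ → ℕ} (m : ℕ) {z : ℝ} (hz : 0 ≤ z) :
    ENNReal.ofReal (NN k L m z) = ∑ u ∈ Finset.range (k ^ m), ENNReal.ofReal z ^ L m u := by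
  unfold NN
  rw [ENNReal.ofReal_sum_of_nonneg (fun u _ => by positivity)]
  refine Finset.sum_congr rfl fun u _ => ?_
  rw [ENNReal.ofReal_pow hz]

theorem pow_le_pow_enn {t : ENNReal} (ht : t ≤ 1) {a b : ℕ} (h : a ≤ b) : t ^ b ≤ t ^ a :=
  pow_le_pow_of_le_one (zero_le) ht h

end

theorem low : S_LOW := by
  intro k G _ μ S M H m z hm hz0 hz1
  classical
  have hk := H.two_le
  have ht : ENNReal.ofReal z ≤ 1 := by rw [← ENNReal.ofReal_one]; exact ENNReal.ofReal_le_ofReal hz1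
  set t := ENNReal.ofReal z with htdef
  rw [ofReal_NN m hz0.le]
  have h1 : ∑ u ∈ Finset.range (k ^ m), t ^ LL μ S m u ≤ ∑ u ∈ Finset.range (k ^ m), t ^ clen S (kap μ m u) :=
    Finset.sum_le_sum fun u _ => pow_le_pow_enn ht (clen_le S rfl)
  refine h1.trans ?_
  rw [Finset.sum_comp (fun κ => t ^ clen S κ) (kap μ m)]
  have h2 : EE μ S m z = ∑' κ : ConjClasses G, Set.indicator {κ | μ.cm κ = m} (fun κ => t ^ clen S κ) κ := by
    unfold EE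
    exact tsum_subtype {κ : ConjClasses G | μ.cm κ = m} (fun κ => t ^ clen S κ)
  rw [h2, ← ENNReal.tsum_mul_left]
  refine le_trans ?_ (ENNReal.sum_le_tsum ((Finset.range (k ^ m)).image (kap μ m)))
  refine Finset.sum_le_sum fun κ hκ => ?_
  obtain ⟨u, _, rfl⟩ := Finset.mem_image.1 hκ
  rw [Set.indicator_of_mem (show kap μ m u ∈ {κ | μ.cm κ = m} from cm_kap m u), nsmul_eq_mul]
  apply mul_le_mul_left
  exact_mod_cast card_fiber_le hk hm (kap μ m u)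

end Pool.Agent.Q281.BSG
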