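import Pool.Agent.Q281.BSG.Stm

set_option autoImplicit false

/-!
# Conjugacy growth of `BS(1,k)`: job CYC
-/

namespace Pool.Agent.Q281.BSG

theorem wlen_pow_le {G : Type} [Group G] {S : Set G} (hgen : Subgroup.closure S = ⊤) (g : G) (n : ℕ) :
    wlen S (g ^ n) ≤ n * wlen S g := by
  induction n with
  | zero => simp [wlen_one]
  | succ n ih =>
    rw [pow_succ]
    have := wlen_mul_le hgen (g ^ n) g
    calc wlen S (g ^ n * g) ≤ wlen S (g ^ n) + wlen S g := this
      _ ≤ n * wlen S g + wlen S g := by omega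
      _ = (n + 1) * wlen S g := by ring

theorem exists_int_pow {k : ℕ} {G : Type} [Group G] (μ : Model k G) (p : ℕ) (u : ℤ) (g : G)
    (hx : μ.x g = u) (hm : μ.m g = p) (n : ℕ) : ∃ v : ℤ, μ.x (g ^ n) = v := by
  induction n with
  | zero => exact ⟨0, by simp [μ.x_one]⟩
  | succ n ih =>
    obtain ⟨v, hv⟩ := ih
    refine ⟨u + (k : ℤ) ^ p * v, ?_⟩
    rw [pow_succ', μ.x_mul, hx, hm, hv, zpow_natCast]
    push_cast
    ring

theorem cyc (hC : S_C) : S_CYC := by
  intro k G _ μ S M H
  obtain ⟨C, hC⟩ := hC k G μ S M H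
  refine ⟨C, ?_⟩
  intro p u g h hp hu0 hu1 hx hm hconj
  have key : ∀ n : ℕ, n * wlen S g ≤ wlen S (g ^ n) + n * C := by
    intro n
    induction n with
    | zero => simp
    | succ n ih =>
      obtain ⟨v, hv⟩ := exists_int_pow μ p u g hx hm n
      have h1 := hC p (n * p) u v g (g ^ n) hm (by rw [μ.m_pow, hm]; push_cast; ring) hx hv
        (by rw [abs_of_nonneg hu0]; exact hu1.le)
      rw [← pow_succ'] at h1
      calc (n + 1) * wlen S g = n * wlen S g + wlen S g := by ring
        _ ≤ wlen S (g ^ n) + n * C + wlen S g := by omega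
        _ ≤ wlen S (g ^ (n + 1)) + (n + 1) * C := by
          have : (n + 1) * C = n * C + C := by ring
          omega
  obtain ⟨c, hc⟩ := isConj_iff.1 hconj
  have h2 : ∀ n : ℕ, wlen S (g ^ n) ≤ 2 * wlen S c + n * wlen S h := by
    intro n
    have h3 : g ^ n = c⁻¹ * (h ^ n * c) := by
      rw [← hc, conj_pow]
      group
    rw [h3]
    have h4 := wlen_mul_le H.gen c⁻¹ (h ^ n * c)
    have h5 := wlen_mul_le H.gen (h ^ n) c
    have h6 := wlen_pow_le H.gen h n
    rw [wlen_inv H.gen] at h4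
    omega
  by_contra hcon
  push Not at hcon
  have h7 := key (2 * wlen S c + 1)
  have h8 := h2 (2 * wlen S c + 1)
  have h9 : (2 * wlen S c + 1) * (wlen S h + C + 1) ≤ (2 * wlen S c + 1) * wlen S g :=
    Nat.mul_le_mul_left _ hcon
  have h10 : (2 * wlen S c + 1) * (wlen S h + C + 1) =
    (2 * wlen S c + 1) * wlen S h + (2 * wlen S c + 1) * C + (2 * wlen S c + 1) := by ring
  omega

end Pool.Agent.Q281.BSG
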