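import Mathlib

set_option autoImplicit false

/-!
# Conjugacy growth of `BS(1,k)`: definitions and basic facts
-/

namespace Pool.Agent.Q281.BSG

section words

variable {G : Type} [Group G]

/-- words over `S ∪ S⁻¹` -/
def IsWord (S : Set G) (w : List G) : Prop := ∀ s ∈ w, s ∈ S ∨ s⁻¹ ∈ S

/-- word length -/
noncomputable def wlen (S : Set G) (g : G) : ℕ :=
  sInf {n | ∃ w : List G, IsWord S w ∧ w.prod = g ∧ w.length = n}

/-- length of a conjugacy class -/
noncomputable def clen (S : Set G) (κ : ConjClasses G) : ℕ :=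
  sInf {n | ∃ g : G, ConjClasses.mk g = κ ∧ wlen S g = n}

end words

/-- coordinates on a group isomorphic to `BS(1,k) = ℤ[1/k] ⋊ ℤ` -/
structure Model (k : ℕ) (G : Type) [Group G] where
  x : G → ℚ
  m : G → ℤ
  x_mul : ∀ g h, x (g * h) = x g + (k : ℚ) ^ (m g) * x h
  m_mul : ∀ g h, m (g * h) = m g + m h
  ext : ∀ g h, x g = x h → m g = m h → g = h
  surj : ∀ (i : ℕ) (n e : ℤ), ∃ g, x g = n / (k : ℚ) ^ i ∧ m g = e
  den : ∀ g, ∃ (i : ℕ) (n : ℤ), x g = n / (k : ℚ) ^ i

/-- the standing hypotheses: `k ≥ 2`, `S` is a finite generating set, its letters change the level by at most `M` -/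
structure Hyp {k : ℕ} {G : Type} [Group G] (μ : Model k G) (S : Set G) (M : ℕ) : Prop where
  two_le : 2 ≤ k
  fin : S.Finite
  gen : Subgroup.closure S = ⊤
  pos : 1 ≤ M
  bd : ∀ s ∈ S, |μ.m s| ≤ M

/-- the element with coordinates `(u, e)`, `u` an integer -/
noncomputable def Model.el {k : ℕ} {G : Type} [Group G] (μ : Model k G) (u e : ℤ) : G :=
  (μ.surj 0 u e).choose

/-- `L m u`: the length of `(u, m)` -/
noncomputable def LL {k : ℕ} {G : Type} [Group G] (μ : Model k G) (S : Set G) (m u : ℕ) : ℕ :=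
  wlen S (μ.el u m)

/-- `N_m(z) = ∑_{u < k^m} z^{L m u}` -/
noncomputable def NN (k : ℕ) (L : ℕ → ℕ → ℕ) (m : ℕ) (z : ℝ) : ℝ :=
  ∑ u ∈ Finset.range (k ^ m), z ^ L m u

/-- the exponent of a conjugacy class -/
noncomputable def Model.cm {k : ℕ} {G : Type} [Group G] (μ : Model k G) (κ : ConjClasses G) : ℤ :=
  μ.m κ.exists_rep.choose

/-- the part of the conjugacy growth series which comes from the classes of exponent `e` -/
noncomputable def EE {k : ℕ} {G : Type} [Group G] (μ : Model k G) (S : Set G) (e : ℤ) (z : ℝ) : ENNReal :=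
  ∑' κ : {κ : ConjClasses G // μ.cm κ = e}, ENNReal.ofReal z ^ clen S κ.1

end Pool.Agent.Q281.BSG
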