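import Pool.Agent.Q281.BSG.Conj

set_option autoImplicit false

/-!
# Conjugacy growth of `BS(1,k)`: job FIN, the analytic assembly
-/

open Filter Topology

namespace Pool.Agent.Q281.BSG

/-- the number of classes of length `n` -/
noncomputable def an {K : Type} (c : K → ℕ) (n : ℕ) : ℕ := Nat.card {κ : K // c κ = n}

/-- the sum over all classes is the sum over the lengths -/
theorem tsum_len {K : Type} (c : K → ℕ) (hfin : ∀ n, {κ | c κ = n}.Finite) (t : ENNReal) :
    ∑' κ : K, t ^ c κ = ∑' n : ℕ, (an c n : ENNReal) * t ^ n := by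
  rw [← (Equiv.sigmaFiberEquiv c).tsum_eq, ENNReal.tsum_sigma']
  refine tsum_congr fun n => ?_
  have h1 : ∀ κ : {κ : K // c κ = n}, t ^ c ((Equiv.sigmaFiberEquiv c) ⟨n, κ⟩) = t ^ n := by
    intro κ
    change t ^ c κ.1 = t ^ n
    rw [κ.2]
  rw [tsum_congr h1]
  haveI : Finite {κ : K // c κ = n} := (hfin n).to_subtype
  haveI := Fintype.ofFinite {κ : K // c κ = n}
  rw [tsum_fintype, Finset.sum_const, Finset.card_univ, nsmul_eq_mul, an, Nat.card_eq_fintype_card]

/-- the sum over all classes is the sum over the exponents -/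
theorem tsum_exp {K : Type} (c : K → ℕ) (e : K → ℤ) (t : ENNReal) :
    ∑' κ : K, t ^ c κ = ∑' a : ℤ, ∑' κ : {κ : K // e κ = a}, t ^ c κ.1 := by
  rw [← (Equiv.sigmaFiberEquiv e).tsum_eq, ENNReal.tsum_sigma']
  rfl

theorem NN_mono {k : ℕ} {L : ℕ → ℕ → ℕ} (m : ℕ) {z w : ℝ} (hz : 0 ≤ z) (hzw : z ≤ w) :
    NN k L m z ≤ NN k L m w := by
  unfold NN
  exact Finset.sum_le_sum fun u _ => pow_le_pow_left₀ hz hzw _

theorem NN_nonneg {k : ℕ} {L : ℕ → ℕ → ℕ} (m : ℕ) {z : ℝ} (hz : 0 ≤ z) : 0 ≤ NN k L m z :=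
  Finset.sum_nonneg fun _ _ => pow_nonneg hz _

theorem term_real {N1 N2 θi ρ z z0 : ℝ} (n e : ℕ) (hz : 0 ≤ z) (hzz : z ≤ z0) (h3 : N1 ≤ θi * ρ ^ (n + 1)) (h6 : N2 ≤ 1) :
    N1 / ((n + 1 : ℕ) : ℝ) + ((n + 1 : ℕ) : ℝ) * z ^ e * N2 ≤ θi * (ρ ^ (n + 1) / ((n : ℝ) + 1)) + ((n : ℝ) + 1) * z0 ^ e := by
  have hn : (0 : ℝ) < (n : ℝ) + 1 := by positivity
  have h7 : z ^ e ≤ z0 ^ e := pow_le_pow_left₀ hz hzz _
  have h8 : 0 ≤ z ^ e := pow_nonneg hz _
  push_cast
  have h9 : N1 / ((n : ℝ) + 1) ≤ θi * (ρ ^ (n + 1) / ((n : ℝ) + 1)) := by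
    rw [← mul_div_assoc]
    exact div_le_div_of_nonneg_right h3 hn.le
  have h10 : ((n : ℝ) + 1) * z ^ e * N2 ≤ ((n : ℝ) + 1) * z0 ^ e := by
    calc ((n : ℝ) + 1) * z ^ e * N2 ≤ ((n : ℝ) + 1) * z ^ e * 1 :=
          mul_le_mul_of_nonneg_left h6 (mul_nonneg hn.le h8)
      _ ≤ _ := by rw [mul_one]; exact mul_le_mul_of_nonneg_left h7 hn.le
  exact add_le_add h9 h10

theorem NN_decay {k M : ℕ} {L : ℕ → ℕ → ℕ} (hl : ∀ m u, u < k ^ m → m ≤ M * L m u) (m : ℕ) {z z0 : ℝ}
    (hz : 0 < z) (hzz : z ≤ z0) : NN k L m z ≤ (z / z0) ^ (m / M) * NN k L m z0 := by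
  have hz0 : 0 < z0 := lt_of_lt_of_le hz hzz
  unfold NN
  rw [Finset.mul_sum]
  refine Finset.sum_le_sum fun u hu => ?_
  have h1 := hl m u (Finset.mem_range.1 hu)
  have h2 : m / M ≤ L m u := Nat.div_le_of_le_mul h1
  have h3 : z ^ L m u = (z / z0) ^ L m u * z0 ^ L m u := by
    rw [← mul_pow, div_mul_cancel₀ _ hz0.ne']
  rw [h3]
  apply mul_le_mul_of_nonneg_right _ (by positivity)
  exact pow_le_pow_of_le_one (by positivity) ((div_le_one hz0).2 hzz) h2

/-- `θ ^ (m / M) ≤ θ⁻¹ ρ ^ m` for `ρ ^ M = θ` -/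
theorem pow_div_le {M : ℕ} (hM : 1 ≤ M) {ρ : ℝ} (h0 : 0 < ρ) (h1 : ρ ≤ 1) (m : ℕ) :
    (ρ ^ M) ^ (m / M) ≤ (ρ ^ M)⁻¹ * ρ ^ m := by
  rw [le_inv_mul_iff₀ (by positivity), ← pow_mul, ← pow_add]
  apply pow_le_pow_of_le_one h0.le h1
  have := Nat.lt_mul_div_succ m (show 0 < M by omega)
  have h2 : M * (m / M + 1) = M + M * (m / M) := by ring
  omega

/-- the second constant -/
theorem summable_second {z0 : ℝ} (h0 : 0 < z0) (h1 : z0 < 1) {M : ℕ} (hM : 1 ≤ M) :
    Summable fun n : ℕ => ((n : ℝ) + 1) * z0 ^ ((n + 1) / 2 / M) := by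
  -- compare with `z0⁻¹ (n+1) σ^(n+1)` for `σ ^ (2 M) = z0`
  set σ : ℝ := z0 ^ ((1 : ℝ) / ((2 * M : ℕ) : ℝ)) with hσ
  have hM2 : (0 : ℝ) < ((2 * M : ℕ) : ℝ) := by exact_mod_cast (by omega : 0 < 2 * M)
  have hσ0 : 0 < σ := Real.rpow_pos_of_pos h0 _
  have hσ1 : σ < 1 := Real.rpow_lt_one h0.le h1 (by positivity)
  have hσp : σ ^ (2 * M) = z0 := by
    rw [hσ, ← Real.rpow_natCast, ← Real.rpow_mul h0.le, one_div, inv_mul_cancel₀ hM2.ne', Real.rpow_one]
  have hs : Summable fun n : ℕ => z0⁻¹ * (((n : ℝ) + 1) * σ ^ (n + 1)) := by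
    apply Summable.mul_left
    have h2 : Summable fun n : ℕ => ((n : ℝ)) * σ ^ n := by
      have := summable_pow_mul_geometric_of_norm_lt_one (R := ℝ) 1 (r := σ)
        (by rw [Real.norm_of_nonneg hσ0.le]; exact hσ1)
      simpa using this
    have := (summable_nat_add_iff 1).2 h2
    simpa using this
  refine Summable.of_nonneg_of_le (fun n => by positivity) (fun n => ?_) hs
  have h3 := pow_div_le (M := 2 * M) (by omega) hσ0 hσ1.le (n + 1)
  rw [hσp, ← Nat.div_div_eq_div_mul] at h3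
  calc ((n : ℝ) + 1) * z0 ^ ((n + 1) / 2 / M) ≤ ((n : ℝ) + 1) * (z0⁻¹ * σ ^ (n + 1)) :=
        mul_le_mul_of_nonneg_left h3 (by positivity)
    _ = _ := by ring

theorem tendsto_small (J : ℕ) (z0 : ℝ) :
    Tendsto (fun z : ℝ => (z0 - z) * (1 - Real.log (z0 - z)) ^ J) (𝓝[<] z0) (𝓝 0) := by
  have h1 : Tendsto (fun z : ℝ => z0 - z) (𝓝[<] z0) (𝓝[>] 0) := by
    apply tendsto_nhdsWithin_iff.2
    constructor
    · have : Tendsto (fun z : ℝ => z0 - z) (𝓝 z0) (𝓝 (z0 - z0)) := (continuous_const.sub continuous_id).tendsto z0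
      rw [sub_self] at this
      exact this.mono_left nhdsWithin_le_nhds
    · filter_upwards [self_mem_nhdsWithin] with z hz
      simpa using hz
  have h2 : Tendsto (fun y : ℝ => y * (1 - Real.log y) ^ J) (𝓝[>] 0) (𝓝 0) := by
    have h3 : Tendsto (fun y : ℝ => 1 - Real.log y) (𝓝[>] 0) atTop := by
      have := Real.tendsto_log_nhdsGT_zero
      have h4 := tendsto_neg_atBot_atTop.comp this
      have h5 := tendsto_atTop_add_const_left (𝓝[>] (0 : ℝ)) 1 h4
      refine h5.congr fun y => ?_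
      simp [sub_eq_add_neg]
    have h6 := (Real.tendsto_pow_mul_exp_neg_atTop_nhds_zero J).comp h3
    have h7 := h6.const_mul (Real.exp 1)
    rw [mul_zero] at h7
    refine h7.congr' ?_
    filter_upwards [self_mem_nhdsWithin] with y hy
    have hy0 : (0 : ℝ) < y := hy
    simp only [Function.comp]
    have : Real.exp (-(1 - Real.log y)) = Real.exp (-1) * y := by
      rw [neg_sub, sub_eq_add_neg, Real.exp_add, Real.exp_log hy0]; ring
    rw [this]
    have h8 : Real.exp 1 * Real.exp (-1) = 1 := by rw [← Real.exp_add]; simp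
    calc Real.exp 1 * ((1 - Real.log y) ^ J * (Real.exp (-1) * y)) =
        (Real.exp 1 * Real.exp (-1)) * (y * (1 - Real.log y) ^ J) := by ring
      _ = _ := by rw [h8, one_mul]
  exact h2.comp h1

theorem fin (hT : S_T) : S_FIN := by
  intro K c e k C M L z0 hfin hk hM hz0 hz1 hN hl hneg hE0 hlow hup
  classical
  set a := an c with ha
  set E : ℤ → ℝ → ENNReal := fun b z => ∑' κ : {κ : K // e κ = b}, ENNReal.ofReal z ^ c κ.1 with hE
  -- total sum
  have htot : ∀ z : ℝ, ∑' n : ℕ, (a n : ENNReal) * ENNReal.ofReal z ^ n = E 0 z + 2 * ∑' n : ℕ, E ((n + 1 : ℕ) : ℤ) z := by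
    intro z
    rw [ha, ← tsum_len c hfin, tsum_exp c e]
    change ∑' b : ℤ, E b z = _
    rw [tsum_of_nat_of_neg_add_one ENNReal.summable ENNReal.summable]
    have h1 : ∀ n : ℕ, E (-((n : ℤ) + 1)) z = E ((n + 1 : ℕ) : ℤ) z := by
      intro n
      have := hneg ((n + 1 : ℕ) : ℤ) z
      push_cast at this
      push_cast
      exact this
    rw [tsum_congr h1, tsum_eq_zero_add' ENNReal.summable]
    push_cast
    ring
  -- upper bound
  obtain ⟨B, hB⟩ : ∃ B : ℝ, B = ∑' n : ℕ, ((n : ℝ) + 1) * z0 ^ ((n + 1) / 2 / M) := ⟨_, rfl⟩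
  have hsec := summable_second hz0 hz1 hM
  have hB0 : 0 ≤ B := by rw [hB]; exact tsum_nonneg fun n => by positivity
  have hMR : (0 : ℝ) < (M : ℝ) := by exact_mod_cast hM
  have hupper : ∀ z : ℝ, 0 < z → z < z0 →
      ∑' n : ℕ, E ((n + 1 : ℕ) : ℤ) z ≤
        ENNReal.ofReal ((z ^ C)⁻¹ * ((z / z0)⁻¹ * -Real.log (1 - (z / z0) ^ ((1 : ℝ) / M)) + B)) := by
    intro z hz hzz
    set θ := z / z0 with hθ
    have hθ0 : 0 < θ := by positivity
    have hθ1 : θ < 1 := (div_lt_one hz0).2 hzz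
    set ρ := θ ^ ((1 : ℝ) / M) with hρ
    have hρ0 : 0 < ρ := Real.rpow_pos_of_pos hθ0 _
    have hρ1 : ρ < 1 := Real.rpow_lt_one hθ0.le hθ1 (by positivity)
    have hρp : ρ ^ M = θ := by
      rw [hρ, ← Real.rpow_natCast, ← Real.rpow_mul hθ0.le, one_div, inv_mul_cancel₀ hMR.ne', Real.rpow_one]
    have hlog := Real.hasSum_pow_div_log_of_abs_lt_one (x := ρ) (by rw [abs_of_pos hρ0]; exact hρ1)
    have hterm : ∀ n : ℕ, E ((n + 1 : ℕ) : ℤ) z ≤
        ENNReal.ofReal ((z ^ C)⁻¹ * (θ⁻¹ * (ρ ^ (n + 1) / ((n : ℝ) + 1)) + ((n : ℝ) + 1) * z0 ^ ((n + 1) / 2 / M))) := by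
      intro n
      have h1 := hup (n + 1) z (by omega) hz (by linarith)
      have hzC : (0 : ℝ) < z ^ C := by positivity
      have h2 : E ((n + 1 : ℕ) : ℤ) z ≤ ENNReal.ofReal ((NN k L (n + 1) z / ((n + 1 : ℕ) : ℝ) +
          ((n + 1 : ℕ) : ℝ) * z ^ ((n + 1) / 2 / M) * NN k L ((n + 1) / 2) z) / z ^ C) := by
        rw [ENNReal.ofReal_div_of_pos hzC]
        rw [ENNReal.le_div_iff_mul_le (Or.inl (by simpa using hzC)) (Or.inl ENNReal.ofReal_ne_top)]
        exact h1
      refine h2.trans (ENNReal.ofReal_le_ofReal ?_)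
      rw [div_eq_inv_mul _ (z ^ C)]
      apply mul_le_mul_of_nonneg_left _ (by positivity)
      have h3 : NN k L (n + 1) z ≤ θ⁻¹ * ρ ^ (n + 1) := by
        have h4 := NN_decay hl (n + 1) hz hzz.le
        have h5 := pow_div_le hM hρ0 hρ1.le (n + 1)
        rw [hρp] at h5
        calc NN k L (n + 1) z ≤ θ ^ ((n + 1) / M) * NN k L (n + 1) z0 := h4
          _ ≤ θ ^ ((n + 1) / M) * 1 := mul_le_mul_of_nonneg_left (hN (n + 1)).2 (pow_nonneg hθ0.le _)
          _ ≤ θ⁻¹ * ρ ^ (n + 1) := by rw [mul_one]; exact h5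
      have h6 : NN k L ((n + 1) / 2) z ≤ 1 := (NN_mono ((n + 1) / 2) hz.le hzz.le).trans (hN ((n + 1) / 2)).2
      exact term_real n ((n + 1) / 2 / M) hz.le hzz.le h3 h6
    refine (ENNReal.tsum_le_tsum hterm).trans ?_
    have hs1 : HasSum (fun n : ℕ => θ⁻¹ * (ρ ^ (n + 1) / ((n : ℝ) + 1)) + ((n : ℝ) + 1) * z0 ^ ((n + 1) / 2 / M))
        (θ⁻¹ * -Real.log (1 - ρ) + B) := by
      refine HasSum.add (hlog.mul_left _) ?_
      rw [hB]
      exact hsec.hasSum
    have hs2 := hs1.mul_left (z ^ C)⁻¹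
    rw [← ENNReal.ofReal_tsum_of_nonneg (fun n => by positivity) hs2.summable, hs2.tsum_eq]
  -- monotonicity in z and finiteness
  have hEmono : ∀ b z w, z ≤ w → E b z ≤ E b w := by
    intro b z w hzw
    exact ENNReal.tsum_le_tsum fun κ => pow_le_pow_left' (ENNReal.ofReal_le_ofReal hzw) _
  have hfinite : ∀ z : ℝ, z < z0 → ∑' n : ℕ, (a n : ENNReal) * ENNReal.ofReal z ^ n ≠ ⊤ := by
    intro z hz
    set z' := max z (z0 / 2) with hz'
    have hz'0 : 0 < z' := lt_of_lt_of_le (by positivity) (le_max_right _ _)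
    have hz'1 : z' < z0 := max_lt hz (by linarith)
    have h1 : ∑' n : ℕ, (a n : ENNReal) * ENNReal.ofReal z ^ n ≤ ∑' n : ℕ, (a n : ENNReal) * ENNReal.ofReal z' ^ n :=
      ENNReal.tsum_le_tsum fun n => mul_le_mul_right (pow_le_pow_left' (ENNReal.ofReal_le_ofReal (le_max_left _ _)) _) _
    refine ne_top_of_le_ne_top ?_ h1
    rw [htot]
    refine ENNReal.add_ne_top.2 ⟨ne_top_of_le_ne_top hE0 (hEmono 0 z' z0 hz'1.le), ?_⟩
    exact ENNReal.mul_ne_top (by norm_num) (ne_top_of_le_ne_top ENNReal.ofReal_ne_top (hupper z' hz'0 hz'1))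
  -- real series
  have hterm : ∀ (z : ℝ) (n : ℕ), 0 ≤ z → (a n : ENNReal) * ENNReal.ofReal z ^ n = ENNReal.ofReal ((a n : ℝ) * z ^ n) := by
    intro z n hz
    rw [ENNReal.ofReal_mul (by positivity), ENNReal.ofReal_natCast, ENNReal.ofReal_pow hz]
  have hsummable : ∀ z : ℝ, 0 ≤ z → z < z0 → Summable fun n => (a n : ℝ) * z ^ n := by
    intro z hz hzz
    have h1 := hfinite z hzz
    rw [tsum_congr (fun n => hterm z n hz)] at h1
    have h2 := ENNReal.summable_toReal h1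
    refine h2.congr fun n => ?_
    exact ENNReal.toReal_ofReal (by positivity)
  have hF : ∀ z : ℝ, 0 ≤ z → z < z0 → ENNReal.ofReal (∑' n, (a n : ℝ) * z ^ n) =
      E 0 z + 2 * ∑' n : ℕ, E ((n + 1 : ℕ) : ℤ) z := by
    intro z hz hzz
    rw [ENNReal.ofReal_tsum_of_nonneg (fun n => by positivity) (hsummable z hz hzz), ← htot]
    exact tsum_congr (fun n => (hterm z n hz).symm)
  -- the coefficients
  have hcoeff : ∀ n, ((PowerSeries.coeff n (PowerSeries.mk fun n => (Nat.card {κ : K // c κ = n} : ℚ)) : ℚ) : ℝ) = (a n : ℝ) := by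
    intro n
    rw [PowerSeries.coeff_mk]
    rw [ha]
    unfold an
    push_cast
    rfl
  apply hT _ z0 hz0
  · intro n
    rw [PowerSeries.coeff_mk]
    positivity
  · intro z hz hzz
    simp only [hcoeff]
    exact hsummable z hz hzz
  · simp only [hcoeff]
    -- divergence
    rw [tendsto_atTop]
    intro b
    obtain ⟨R, hR⟩ : ∃ R : ℕ, b < z0 ^ C * ((1 / 2) * ∑ i ∈ Finset.range R, 1 / ((i : ℝ) + 1)) := by
      have h1 := Real.tendsto_sum_range_one_div_nat_succ_atTop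
      have h2 : Tendsto (fun R : ℕ => z0 ^ C * ((1 / 2) * ∑ i ∈ Finset.range R, 1 / ((i : ℝ) + 1))) atTop atTop :=
        (h1.const_mul_atTop (by norm_num)).const_mul_atTop (by positivity)
      exact (h2.eventually_gt_atTop b).exists
    have hcont : Continuous fun z : ℝ => ∑ i ∈ Finset.range R, NN k L (i + 1) z / ((i : ℝ) + 2) := by
      unfold NN
      fun_prop
    have hat : b < ∑ i ∈ Finset.range R, NN k L (i + 1) z0 / ((i : ℝ) + 2) := by
      refine lt_of_lt_of_le hR ?_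
      rw [Finset.mul_sum, Finset.mul_sum]
      refine Finset.sum_le_sum fun i _ => ?_
      have h1 := (hN (i + 1)).1
      have h2 : (1 / 2 : ℝ) * (1 / ((i : ℝ) + 1)) ≤ 1 / ((i : ℝ) + 2) := by
        rw [show (1 / 2 : ℝ) * (1 / ((i : ℝ) + 1)) = 1 / (2 * ((i : ℝ) + 1)) by field_simp]
        apply one_div_le_one_div_of_le (by positivity)
        have : (0 : ℝ) ≤ i := by positivity
        linarith
      calc z0 ^ C * (1 / 2 * (1 / ((i : ℝ) + 1))) ≤ z0 ^ C * (1 / ((i : ℝ) + 2)) :=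
            mul_le_mul_of_nonneg_left h2 (by positivity)
        _ = z0 ^ C / ((i : ℝ) + 2) := by ring
        _ ≤ _ := div_le_div_of_nonneg_right h1 (by positivity)
    have hev : ∀ᶠ z in 𝓝[<] z0, b < ∑ i ∈ Finset.range R, NN k L (i + 1) z / ((i : ℝ) + 2) :=
      (hcont.tendsto z0).eventually_const_lt hat |>.filter_mono nhdsWithin_le_nhds
    have hpos : ∀ᶠ z in 𝓝[<] z0, 0 < z :=
      ((tendsto_id (x := 𝓝 z0)).eventually_const_lt hz0).filter_mono nhdsWithin_le_nhds
    filter_upwards [hev, hpos, self_mem_nhdsWithin] with z h1 h2 h3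
    have h3' : z < z0 := h3
    have h4 : ENNReal.ofReal (∑ i ∈ Finset.range R, NN k L (i + 1) z / ((i : ℝ) + 2)) ≤
        ENNReal.ofReal (∑' n, (a n : ℝ) * z ^ n) := by
      rw [hF z h2.le h3', ENNReal.ofReal_sum_of_nonneg (fun i _ => div_nonneg (NN_nonneg _ h2.le) (by positivity))]
      have h5 : ∀ i ∈ Finset.range R, ENNReal.ofReal (NN k L (i + 1) z / ((i : ℝ) + 2)) ≤ E ((i + 1 : ℕ) : ℤ) z := by
        intro i _
        have h6 := hlow (i + 1) z (by omega) h2 (by linarith)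
        rw [ENNReal.ofReal_div_of_pos (by positivity)]
        apply ENNReal.div_le_of_le_mul
        refine h6.trans (le_of_eq ?_)
        rw [mul_comm]
        congr 1
        rw [ENNReal.ofReal_add (by positivity) (by norm_num), ENNReal.ofReal_natCast]
        push_cast
        have : ENNReal.ofReal 2 = 2 := by simp
        rw [this]
        ring
      calc _ ≤ ∑ i ∈ Finset.range R, E ((i + 1 : ℕ) : ℤ) z := Finset.sum_le_sum h5
        _ ≤ ∑' n : ℕ, E ((n + 1 : ℕ) : ℤ) z := ENNReal.sum_le_tsum _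
        _ ≤ 2 * ∑' n : ℕ, E ((n + 1 : ℕ) : ℤ) z := by rw [two_mul]; exact le_self_add
        _ ≤ _ := le_add_self
    have h5 : 0 ≤ ∑' n, (a n : ℝ) * z ^ n := tsum_nonneg fun n => by positivity
    have h6 := (ENNReal.ofReal_le_ofReal_iff h5).1 h4
    linarith
  · intro J
    simp only [hcoeff]
    -- logarithmic upper bound
    obtain ⟨K1, hK1, hK⟩ : ∃ K1 : ℝ, 0 ≤ K1 ∧ ∀ z, z0 / 2 ≤ z → z < z0 →
        ∑' n, (a n : ℝ) * z ^ n ≤ K1 * (1 - Real.log (z0 - z)) := by
      set A0 := (E 0 z0).toReal with hA0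
      set P := ((z0 / 2) ^ C)⁻¹ with hP
      have hP0 : 0 < P := by positivity
      refine ⟨A0 + 2 * (P * (2 * (Real.log M + 1) + B)), by
        have : 0 ≤ Real.log M := Real.log_nonneg (by exact_mod_cast hM)
        positivity, ?_⟩
      intro z hz1' hz2
      have hz : 0 < z := by linarith
      set θ := z / z0 with hθ
      have hθ0 : 0 < θ := by positivity
      have hθ1 : θ < 1 := (div_lt_one hz0).2 hz2
      have hθh : 1 / 2 ≤ θ := by
        rw [hθ, le_div_iff₀ hz0]; linarith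
      set ρ := θ ^ ((1 : ℝ) / M) with hρ
      have hρ0 : 0 < ρ := Real.rpow_pos_of_pos hθ0 _
      have hρ1 : ρ < 1 := Real.rpow_lt_one hθ0.le hθ1 (by positivity)
      have hρp : ρ ^ M = θ := by
        rw [hρ, ← Real.rpow_natCast, ← Real.rpow_mul hθ0.le, one_div, inv_mul_cancel₀ hMR.ne', Real.rpow_one]
      have hlogM : 0 ≤ Real.log M := Real.log_nonneg (by exact_mod_cast hM)
      have hlz : 0 ≤ -Real.log (z0 - z) := by
        have := Real.log_nonpos (by linarith : 0 ≤ z0 - z) (by linarith)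
        linarith
      -- `1 - θ ≤ M (1 - ρ)`
      have hb : 1 - θ ≤ M * (1 - ρ) := by
        have := one_add_mul_le_pow (a := ρ - 1) (by linarith) M
        rw [add_sub_cancel, hρp] at this
        linarith
      have hlogb : -Real.log (1 - ρ) ≤ Real.log M - Real.log (z0 - z) := by
        have h1 : Real.log (1 - θ) ≤ Real.log (M * (1 - ρ)) := Real.log_le_log (by linarith) hb
        rw [Real.log_mul hMR.ne' (by linarith)] at h1
        have h2 : Real.log (z0 - z) ≤ Real.log (1 - θ) := by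
          apply Real.log_le_log (by linarith)
          have : z0 - z = z0 * (1 - θ) := by rw [hθ]; field_simp
          rw [this]
          have h3 : 0 ≤ 1 - θ := by linarith
          nlinarith
        linarith
      have h1 := hF z hz.le hz2
      have h2 := hupper z hz hz2
      have h3 : ENNReal.ofReal (∑' n, (a n : ℝ) * z ^ n) ≤ ENNReal.ofReal (A0 + 2 * ((z ^ C)⁻¹ *
          ((z / z0)⁻¹ * -Real.log (1 - (z / z0) ^ ((1 : ℝ) / M)) + B))) := by
        rw [h1, ENNReal.ofReal_add (by positivity), ENNReal.ofReal_mul (by norm_num), hA0, ENNReal.ofReal_toReal hE0]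
        · refine add_le_add (hEmono 0 z z0 hz2.le) ?_
          have : ENNReal.ofReal 2 = 2 := by simp
          rw [this]
          exact mul_le_mul_right h2 _
        · have : 0 ≤ -Real.log (1 - ρ) := by
            have := Real.log_nonpos (by linarith : 0 ≤ 1 - ρ) (by linarith)
            linarith
          positivity
      have hnn : 0 ≤ -Real.log (1 - ρ) := by
        have := Real.log_nonpos (by linarith : 0 ≤ 1 - ρ) (by linarith)
        linarith
      have h4 := (ENNReal.ofReal_le_ofReal_iff (by positivity)).1 h3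
      rw [← hθ, ← hρ] at h4
      have h5 : (z ^ C)⁻¹ ≤ P := by
        rw [hP]
        apply inv_anti₀ (by positivity)
        exact pow_le_pow_left₀ (by positivity) hz1' _
      have h6 : θ⁻¹ ≤ 2 := by
        rw [inv_le_comm₀ hθ0 (by norm_num)]
        linarith
      have h7 : (z ^ C)⁻¹ * (θ⁻¹ * -Real.log (1 - ρ) + B) ≤ P * (2 * (Real.log M - Real.log (z0 - z)) + B) := by
        apply mul_le_mul h5 _ (by positivity) hP0.le
        have := mul_le_mul h6 hlogb hnn (by norm_num)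
        linarith
      have hA0' : 0 ≤ A0 := ENNReal.toReal_nonneg
      calc ∑' n, (a n : ℝ) * z ^ n ≤ A0 + 2 * (P * (2 * (Real.log M - Real.log (z0 - z)) + B)) := by linarith
        _ ≤ (A0 + 2 * (P * (2 * (Real.log M + 1) + B))) * (1 - Real.log (z0 - z)) := by
          have e1 : 0 ≤ A0 * -Real.log (z0 - z) := mul_nonneg hA0' hlz
          have e2 : 0 ≤ P * Real.log M * -Real.log (z0 - z) := by positivity
          have e3 : 0 ≤ P * B * -Real.log (z0 - z) := by positivity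
          have e4 : 0 ≤ P * Real.log M := by positivity
          nlinarith
    have hpos : ∀ᶠ z in 𝓝[<] z0, z0 / 2 < z :=
      ((tendsto_id (x := 𝓝 z0)).eventually_const_lt (by simp; linarith)).filter_mono nhdsWithin_le_nhds
    have hlim := (tendsto_small J z0).const_mul (K1 ^ J)
    rw [mul_zero] at hlim
    refine tendsto_of_tendsto_of_tendsto_of_le_of_le' tendsto_const_nhds hlim ?_ ?_
    · filter_upwards [hpos, self_mem_nhdsWithin] with z h1 h2
      have h2' : z < z0 := h2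
      have h3 : 0 ≤ ∑' n, (a n : ℝ) * z ^ n := tsum_nonneg fun n => by
        have : 0 < z := by linarith
        positivity
      exact mul_nonneg (by linarith) (pow_nonneg h3 _)
    · filter_upwards [hpos, self_mem_nhdsWithin] with z h1 h2
      have h2' : z < z0 := h2
      have h3 : 0 ≤ ∑' n, (a n : ℝ) * z ^ n := tsum_nonneg fun n => by
        have : 0 < z := by linarith
        positivity
      have h4 := hK z h1.le h2'
      calc (z0 - z) * (∑' n, (a n : ℝ) * z ^ n) ^ J ≤ (z0 - z) * (K1 * (1 - Real.log (z0 - z))) ^ J :=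
            mul_le_mul_of_nonneg_left (pow_le_pow_left₀ h3 h4 _) (by linarith)
        _ = K1 ^ J * ((z0 - z) * (1 - Real.log (z0 - z)) ^ J) := by rw [mul_pow]; ring

end Pool.Agent.Q281.BSG
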