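import Pool.Agent.Q281.BSG.Cyc

set_option autoImplicit false

/-!
# Conjugacy growth of `BS(1,k)`: job LOG
-/

namespace Pool.Agent.Q281.BSG

section

variable {k : ℕ} {G : Type} [Group G] {μ : Model k G} {S : Set G} {M : ℕ}

theorem wlen_zpow_le (hgen : Subgroup.closure S = ⊤) (g : G) (n : ℤ) :
    wlen S (g ^ n) ≤ n.natAbs * wlen S g := by
  obtain ⟨j, rfl | rfl⟩ := n.eq_nat_or_neg
  · simpa using wlen_pow_le hgen g j
  · rw [zpow_neg, wlen_inv hgen, zpow_natCast]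
    simpa using wlen_pow_le hgen g j

theorem Model.el_add_zero (μ : Model k G) (u v : ℤ) : μ.el (u + v) 0 = μ.el u 0 * μ.el v 0 := by
  symm
  refine μ.eq_el ?_ ?_
  · rw [μ.x_mul, μ.x_el, μ.x_el, μ.m_el]; simp
  · rw [μ.m_mul, μ.m_el, μ.m_el]; rfl

theorem Model.el_zero_zero (μ : Model k G) : μ.el 0 0 = 1 := by
  symm
  exact μ.eq_el (by simp [μ.x_one]) μ.m_one

theorem Model.x_pow_of_m_zero (μ : Model k G) (g : G) (hg : μ.m g = 0) (n : ℕ) : μ.x (g ^ n) = n * μ.x g := by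
  induction n with
  | zero => simp [μ.x_one]
  | succ n ih => rw [pow_succ, μ.x_mul, ih, μ.m_pow, hg]; push_cast; simp; ring

theorem Model.el_eq_zpow (μ : Model k G) (u : ℤ) : μ.el u 0 = μ.el 1 0 ^ u := by
  symm
  obtain ⟨j, rfl | rfl⟩ := u.eq_nat_or_neg
  · refine μ.eq_el ?_ ?_
    · rw [zpow_natCast, μ.x_pow_of_m_zero _ (μ.m_el _ _), μ.x_el]; push_cast; ring
    · rw [zpow_natCast, μ.m_pow, μ.m_el]; ring
  · refine μ.eq_el ?_ ?_
    · rw [zpow_neg, zpow_natCast, μ.x_inv, μ.m_pow, μ.m_el, μ.x_pow_of_m_zero _ (μ.m_el _ _), μ.x_el]; simp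
    · rw [zpow_neg, zpow_natCast, μ.m_inv, μ.m_pow, μ.m_el]; ring

theorem Model.el_eq_zpow' (μ : Model k G) (e : ℤ) : μ.el 0 e = μ.el 0 1 ^ e := by
  symm
  have hx : ∀ n : ℕ, μ.x (μ.el 0 1 ^ n) = 0 := by
    intro n
    induction n with
    | zero => simp [μ.x_one]
    | succ n ih => rw [pow_succ, μ.x_mul, ih, μ.x_el]; simp
  obtain ⟨j, rfl | rfl⟩ := e.eq_nat_or_neg
  · refine μ.eq_el ?_ ?_
    · rw [zpow_natCast, hx]; simp
    · rw [zpow_natCast, μ.m_pow, μ.m_el]; ring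
  · refine μ.eq_el ?_ ?_
    · rw [zpow_neg, zpow_natCast, μ.x_inv, hx]; simp
    · rw [zpow_neg, zpow_natCast, μ.m_inv, μ.m_pow, μ.m_el]; ring

/-- connectors: `|(0,d)| ≤ c |d|` -/
theorem Hyp.conn_le (H : Hyp μ S M) (d : ℤ) : wlen S (μ.el 0 d) ≤ d.natAbs * wlen S (μ.el 0 1) := by
  rw [μ.el_eq_zpow']
  exact wlen_zpow_le H.gen _ _

theorem Hyp.log_int (H : Hyp μ S M) (n : ℕ) (y : ℤ) (hy : |y| ≤ (k : ℤ) ^ n) :
    wlen S (μ.el y 0) ≤ (k * wlen S (μ.el 1 0) + 2 * wlen S (μ.el 0 1)) * (n + 1) := by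
  have hk := H.two_le
  induction n generalizing y with
  | zero =>
    rw [pow_zero] at hy
    rw [μ.el_eq_zpow]
    have h1 := wlen_zpow_le H.gen (μ.el 1 0) y
    have h2 : y.natAbs ≤ 1 := by
      have := Int.natCast_natAbs y
      omega
    calc _ ≤ y.natAbs * wlen S (μ.el 1 0) := h1
      _ ≤ 1 * wlen S (μ.el 1 0) := Nat.mul_le_mul_right _ h2
      _ ≤ k * wlen S (μ.el 1 0) := Nat.mul_le_mul_right _ (by omega)
      _ ≤ _ := by simp
  | succ n ih =>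
    have hk0 : (0 : ℤ) < k := by positivity
    have h1 : y = y.tmod k + k * y.tdiv k := (Int.tmod_add_mul_tdiv y k).symm
    have h2 : |y.tdiv k| ≤ (k : ℤ) ^ n := by
      have h3 : (y.tdiv k).natAbs = y.natAbs / k := by rw [Int.natAbs_tdiv, Int.natAbs_natCast]; rfl
      have h4 : y.natAbs ≤ k ^ n * k := by
        rw [← pow_succ]
        have : ((y.natAbs : ℕ) : ℤ) ≤ ((k ^ (n + 1) : ℕ) : ℤ) := by
          rw [Int.natCast_natAbs]; push_cast; exact hy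
        exact_mod_cast this
      have h5 : y.natAbs / k ≤ k ^ n := by
        rw [Nat.div_le_iff_le_mul_add_pred (by omega)]
        have : k * k ^ n = k ^ n * k := by ring
        omega
      rw [← Int.natCast_natAbs, h3]
      exact_mod_cast h5
    have h6 : (y.tmod k).natAbs ≤ k := by
      have h7 : (y.tmod k).natAbs = y.natAbs % k := by rw [Int.natAbs_tmod, Int.natAbs_natCast]
      rw [h7]
      exact (Nat.mod_lt _ (by omega)).le
    have h8 : μ.el y 0 = μ.el (y.tmod k) 0 * (μ.el 0 1 * μ.el (y.tdiv k) 0 * (μ.el 0 1)⁻¹) := by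
      symm
      refine μ.eq_el ?_ ?_
      · rw [μ.x_mul, μ.x_conj H.two_le, μ.x_el, μ.x_el, μ.x_el, μ.m_el, μ.m_el, μ.m_el]
        conv_rhs => rw [h1]
        push_cast
        simp
      · rw [μ.m_mul, μ.m_conj, μ.m_el, μ.m_el]; rfl
    rw [h8]
    have h9 := wlen_mul_le H.gen (μ.el (y.tmod k) 0) (μ.el 0 1 * μ.el (y.tdiv k) 0 * (μ.el 0 1)⁻¹)
    have h10 := wlen_mul_le H.gen (μ.el 0 1 * μ.el (y.tdiv k) 0) (μ.el 0 1)⁻¹
    have h11 := wlen_mul_le H.gen (μ.el 0 1) (μ.el (y.tdiv k) 0)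
    rw [wlen_inv H.gen] at h10
    have h12 := ih _ h2
    have h13 : wlen S (μ.el (y.tmod k) 0) ≤ k * wlen S (μ.el 1 0) := by
      rw [μ.el_eq_zpow]
      exact (wlen_zpow_le H.gen _ _).trans (Nat.mul_le_mul_right _ h6)
    have h14 : (k * wlen S (μ.el 1 0) + 2 * wlen S (μ.el 0 1)) * (n + 1 + 1) =
      (k * wlen S (μ.el 1 0) + 2 * wlen S (μ.el 0 1)) * (n + 1) + (k * wlen S (μ.el 1 0) + 2 * wlen S (μ.el 0 1)) := by
      ring
    rw [h14]
    omega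

end

theorem log : S_LOG := by
  intro k G _ μ S M H I
  have hk := H.two_le
  have hk0 : (k : ℚ) ≠ 0 := by positivity
  have hk1 : (0 : ℚ) < (k : ℚ) ^ I := by positivity
  refine ⟨2 * I * wlen S (μ.el 0 1) + (k * wlen S (μ.el 1 0) + 2 * wlen S (μ.el 0 1)) * (I + 1), ?_⟩
  intro n g y hm hx hn
  have h1 : g = (μ.el 0 I)⁻¹ * μ.el y 0 * μ.el 0 I := by
    refine μ.ext _ _ ?_ ?_
    · rw [μ.x_mul, μ.x_mul, μ.x_inv, μ.m_inv, μ.x_el, μ.x_el, μ.m_el, hx, zpow_neg, zpow_natCast]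
      simp
      field_simp
    · rw [μ.m_mul, μ.m_mul, μ.m_inv, μ.m_el, μ.m_el, hm]; ring
  have h2 : |y| ≤ (k : ℤ) ^ (n + I) := by
    have h3 : |(y : ℚ)| ≤ (k : ℚ) ^ n * (k : ℚ) ^ I := by
      rw [hx, abs_div, abs_of_pos hk1, div_le_iff₀ hk1] at hn
      exact hn
    rw [← pow_add] at h3
    exact_mod_cast h3
  have h4 := H.log_int _ _ h2
  have h5 := wlen_mul_le H.gen ((μ.el 0 I)⁻¹ * μ.el y 0) (μ.el 0 I)
  have h6 := wlen_mul_le H.gen (μ.el 0 I)⁻¹ (μ.el y 0)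
  rw [wlen_inv H.gen] at h6
  have h7 := H.conn_le (I : ℤ)
  rw [Int.natAbs_natCast] at h7
  rw [← h1] at h5
  set c := wlen S (μ.el 0 1)
  set D := k * wlen S (μ.el 1 0) + 2 * c
  calc wlen S g ≤ 2 * (I * c) + D * (n + I + 1) := by omega
    _ ≤ (2 * I * c + D * (I + 1)) * (n + 1) := by
      have : (2 * I * c + D * (I + 1)) * (n + 1) = 2 * (I * c) + D * (n + I + 1) + (2 * I * c * n + D * I * n) := by
        ring
      omega

end Pool.Agent.Q281.BSG
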