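import Pool.Agent.Q281.BSG.Cyc

set_option autoImplicit false

/-!
# Conjugacy growth of `BS(1,k)`: assembly
-/

namespace Pool.Agent.Q281.BSG

section

variable {k : ℕ} {G : Type} [Group G] (μ : Model k G) {S : Set G} {M : ℕ}

theorem LL_zero : LL μ S 0 0 = 0 := by
  unfold LL
  have : μ.el ((0 : ℕ) : ℤ) ((0 : ℕ) : ℤ) = 1 := by
    symm
    exact μ.eq_el (by simp [μ.x_one]) (by simp [μ.m_one])
  rw [this, wlen_one]

theorem el_mul (m n u v : ℕ) :
    μ.el u m * μ.el v n = μ.el ((u + k ^ m * v : ℕ) : ℤ) ((m + n : ℕ) : ℤ) := by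
  refine μ.eq_el ?_ ?_
  · rw [μ.x_mul, μ.x_el, μ.x_el, μ.m_el, zpow_natCast]
    push_cast
    ring
  · rw [μ.m_mul, μ.m_el, μ.m_el]
    push_cast
    ring

/-- inversion is a bijection from the classes of exponent `a` to those of exponent `-a` -/
theorem EE_neg (H : Hyp μ S M) (a : ℤ) (z : ℝ) : EE μ S (-a) z = EE μ S a z := by
  classical
  have hinv : ∀ g h : G, IsConj g h → IsConj g⁻¹ h⁻¹ := by
    intro g h hgh
    obtain ⟨c, hc⟩ := isConj_iff.1 hgh
    exact isConj_iff.2 ⟨c, by rw [← hc]; group⟩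
  let J : ConjClasses G → ConjClasses G :=
    Quotient.map' (fun g => g⁻¹) (fun g h hgh => hinv g h hgh)
  have hJ : ∀ g : G, J (ConjClasses.mk g) = ConjClasses.mk g⁻¹ := fun g => rfl
  have hJJ : ∀ κ, J (J κ) = κ := by
    intro κ
    obtain ⟨g, rfl⟩ := κ.exists_rep
    change J (J (ConjClasses.mk g)) = ConjClasses.mk g
    rw [hJ, hJ, inv_inv]
  have hcm : ∀ κ, μ.cm (J κ) = -μ.cm κ := by
    intro κ
    obtain ⟨g, rfl⟩ := κ.exists_rep
    change μ.cm (J (ConjClasses.mk g)) = -μ.cm (ConjClasses.mk g)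
    rw [hJ, μ.cm_mk, μ.cm_mk, μ.m_inv]
  have hle : ∀ κ, clen S (J κ) ≤ clen S κ := by
    intro κ
    obtain ⟨g, hg, hg2⟩ := exists_clen S κ
    rw [← hg2, ← wlen_inv H.gen g]
    refine clen_le S ?_
    rw [← hg, hJ]
  have hcl : ∀ κ, clen S (J κ) = clen S κ := by
    intro κ
    refine le_antisymm (hle κ) ?_
    have := hle (J κ)
    rwa [hJJ] at this
  let e : {κ : ConjClasses G // μ.cm κ = a} ≃ {κ : ConjClasses G // μ.cm κ = -a} :=
    { toFun := fun κ => ⟨J κ.1, by rw [hcm, κ.2]⟩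
      invFun := fun κ => ⟨J κ.1, by rw [hcm, κ.2, neg_neg]⟩
      left_inv := fun κ => Subtype.ext (hJJ κ.1)
      right_inv := fun κ => Subtype.ext (hJJ κ.1) }
  unfold EE
  rw [← e.tsum_eq]
  refine tsum_congr fun κ => ?_
  change ENNReal.ofReal z ^ clen S (J κ.1) = _
  rw [hcl]

theorem NN_mono_const {z : ℝ} (hz0 : 0 < z) (hz1 : z ≤ 1) {C D : ℕ} (h : C ≤ D) : z ^ D ≤ z ^ C :=
  pow_le_pow_of_le_one hz0.le hz1 h

end

/-- the conjugacy growth series -/
noncomputable def cser {G : Type} [Group G] (S : Set G) : PowerSeries ℚ :=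
  PowerSeries.mk fun n => (Nat.card {κ : ConjClasses G // clen S κ = n} : ℚ)

theorem main (hC : S_C) (hlow : S_LOW) (hup : S_UP) (he0 : S_E0) (hn : S_N) (hfin : S_FIN)
    {k : ℕ} {G : Type} [Group G] (μ : Model k G) {S : Set G} {M : ℕ} (H : Hyp μ S M) :
    Transcendental (Polynomial ℚ) (cser S) := by
  obtain ⟨C1, hC1⟩ := hC k G μ S M H
  obtain ⟨C2, hC2⟩ := hup k G μ S M H
  have hk := H.two_le
  have h3 : ∀ m u, u < k ^ m → m ≤ M * LL μ S m u := by
    intro m u _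
    have := H.abs_m_le (μ.el (u : ℤ) (m : ℤ))
    rw [μ.m_el] at this
    have h4 : |((m : ℕ) : ℤ)| = m := abs_of_nonneg (by positivity)
    rw [h4] at this
    exact_mod_cast this
  obtain ⟨z0, hz0, hz1, hz⟩ := hn k C1 M (LL μ S) hk H.pos (LL_zero μ)
    (by
      intro m n u v _ _
      unfold LL
      rw [← el_mul]
      exact wlen_mul_le H.gen _ _)
    (by
      intro m n u v hu _
      have := hC1 m n u v (μ.el u m) (μ.el v n) (μ.m_el _ _) (μ.m_el _ _) (by rw [μ.x_el]) (by rw [μ.x_el])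
        (by
          rw [abs_of_nonneg (by positivity)]
          exact_mod_cast hu.le)
      unfold LL
      rw [← el_mul]
      exact this)
    h3
  have hE0 := he0 k G μ S M H z0 hz0 hz1 (fun m => (hz m).2)
  refine hfin (ConjClasses G) (clen S) μ.cm k (max C1 C2) M (LL μ S) z0 (clen_fiber_finite H.fin H.gen) hk H.pos hz0 hz1
    ?_ h3 ?_ hE0 ?_ ?_
  · intro m
    exact ⟨le_trans (NN_mono_const hz0 hz1.le (le_max_left _ _)) (hz m).1, (hz m).2⟩
  · intro a z
    exact EE_neg μ H a z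
  · intro m z hm h0 h1
    exact hlow k G μ S M H m z hm h0 h1
  · intro m z hm h0 h1
    refine le_trans ?_ (hC2 m z hm h0 h1)
    exact mul_le_mul_right (ENNReal.ofReal_le_ofReal (NN_mono_const h0 h1 (le_max_right _ _))) _

/-- a level bound exists for every finite set of letters -/
theorem exists_hyp {k : ℕ} (hk : 2 ≤ k) {G : Type} [Group G] (μ : Model k G) {S : Set G} (hS : S.Finite)
    (hgen : Subgroup.closure S = ⊤) : ∃ M, Hyp μ S M := by
  obtain ⟨B, hB⟩ := (hS.image (fun s => |μ.m s|)).bddAbove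
  refine ⟨B.toNat + 1, hk, hS, hgen, by omega, ?_⟩
  intro s hs
  have := hB ⟨s, hs, rfl⟩
  simp only at this
  push_cast
  omega

theorem final (hC : S_C) (hlow : S_LOW) (hup : S_UP) (he0 : S_E0) (hn : S_N) (hfin : S_FIN) (hmod : S_MOD)
    (k : ℕ) (hk : 2 ≤ k) (S : Set (BS k)) (hS : S.Finite) (hgen : Subgroup.closure S = ⊤) :
    Transcendental (Polynomial ℚ) (cser S) := by
  obtain ⟨μ⟩ := hmod k hk
  obtain ⟨M, H⟩ := exists_hyp hk μ hS hgen
  exact main hC hlow hup he0 hn hfin μ H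

end Pool.Agent.Q281.BSG
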