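import Pool.Agent.Q281.BSG.Stm

set_option autoImplicit false

/-!
# Conjugacy growth of `BS(1,k)`: job MOD, coordinates
-/

namespace Pool.Agent.Q281.BSG

/-- pairs -/
@[ext] structure Aff (k : ℕ) where
  x : ℚ
  m : ℤ

namespace Aff

variable {k : ℕ} [hk : Fact (2 ≤ k)]

omit hk in
theorem ne0 (h : 2 ≤ k) : (k : ℚ) ≠ 0 := by positivity

instance : Mul (Aff k) := ⟨fun g h => ⟨g.x + (k : ℚ) ^ g.m * h.x, g.m + h.m⟩⟩
instance : One (Aff k) := ⟨⟨0, 0⟩⟩
instance : Inv (Aff k) := ⟨fun g => ⟨-((k : ℚ) ^ (-g.m) * g.x), -g.m⟩⟩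

theorem mul_def (g h : Aff k) : g * h = ⟨g.x + (k : ℚ) ^ g.m * h.x, g.m + h.m⟩ := rfl
theorem one_def : (1 : Aff k) = ⟨0, 0⟩ := rfl
theorem inv_def (g : Aff k) : g⁻¹ = ⟨-((k : ℚ) ^ (-g.m) * g.x), -g.m⟩ := rfl

instance : Group (Aff k) := Group.ofLeftAxioms
  (by
    intro a b c
    simp only [mul_def, zpow_add₀ (ne0 hk.out)]
    ext <;> simp <;> ring)
  (by
    intro a
    simp only [mul_def, one_def]
    ext <;> simp)
  (by
    intro a
    simp only [mul_def, inv_def, one_def]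
    ext <;> simp)

@[simp] theorem mul_x (g h : Aff k) : (g * h).x = g.x + (k : ℚ) ^ g.m * h.x := rfl
@[simp] theorem mul_m (g h : Aff k) : (g * h).m = g.m + h.m := rfl
@[simp] theorem one_x : (1 : Aff k).x = 0 := rfl
@[simp] theorem one_m : (1 : Aff k).m = 0 := rfl
@[simp] theorem inv_x (g : Aff k) : (g⁻¹).x = -((k : ℚ) ^ (-g.m) * g.x) := rfl
@[simp] theorem inv_m (g : Aff k) : (g⁻¹).m = -g.m := rfl

/-- generators -/
def a : Aff k := ⟨1, 0⟩
def t : Aff k := ⟨0, 1⟩

/-- the additive part -/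
def A : Multiplicative ℚ →* Aff k where
  toFun p := ⟨p.toAdd, 0⟩
  map_one' := rfl
  map_mul' p q := by ext <;> simp

/-- the torus part -/
def T : Multiplicative ℤ →* Aff k where
  toFun p := ⟨0, p.toAdd⟩
  map_one' := rfl
  map_mul' p q := by ext <;> simp

theorem a_zpow (n : ℤ) : (a : Aff k) ^ n = ⟨n, 0⟩ := by
  have h := map_zpow (A (k := k)) (Multiplicative.ofAdd (1 : ℚ)) n
  rw [← ofAdd_zsmul] at h
  simpa [A, a] using h.symm

theorem t_zpow (n : ℤ) : (t : Aff k) ^ n = ⟨0, n⟩ := by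
  have h := map_zpow (T (k := k)) (Multiplicative.ofAdd (1 : ℤ)) n
  rw [← ofAdd_zsmul] at h
  simpa [T, t] using h.symm

end Aff

section

variable {k : ℕ}

/-- generators of `BS k` -/
def ga (k : ℕ) : BS k := PresentedGroup.of 0
def gt (k : ℕ) : BS k := PresentedGroup.of 1

theorem rel (k : ℕ) : gt k * ga k = ga k ^ k * gt k := by
  have h : PresentedGroup.mk (rels k) (FreeGroup.of 1 * FreeGroup.of 0 * (FreeGroup.of 1)⁻¹) =
      PresentedGroup.mk (rels k) (FreeGroup.of 0 ^ k) :=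
    PresentedGroup.mk_eq_mk_of_mul_inv_mem (by simp [rels])
  simp only [map_mul, map_inv, map_pow] at h
  exact mul_inv_eq_iff_eq_mul.1 h

theorem conj_ga (k : ℕ) (n : ℤ) : gt k * ga k ^ n = ga k ^ (k * n) * gt k := by
  have h1 : gt k * ga k * (gt k)⁻¹ = ga k ^ k := by rw [rel]; group
  have h2 : gt k * ga k ^ n * (gt k)⁻¹ = ga k ^ ((k : ℤ) * n) := by
    rw [← conj_zpow, h1, zpow_mul, zpow_natCast]
  rw [← h2]; group

theorem conj_ga_pow (k j : ℕ) (n : ℤ) : gt k ^ j * ga k ^ n = ga k ^ ((k : ℤ) ^ j * n) * gt k ^ j := by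
  induction j with
  | zero => simp
  | succ j ih =>
    calc gt k ^ (j + 1) * ga k ^ n = gt k * (gt k ^ j * ga k ^ n) := by rw [pow_succ', mul_assoc]
      _ = gt k * ga k ^ ((k : ℤ) ^ j * n) * gt k ^ j := by rw [ih, mul_assoc]
      _ = ga k ^ ((k : ℤ) * ((k : ℤ) ^ j * n)) * gt k * gt k ^ j := by rw [conj_ga]
      _ = ga k ^ ((k : ℤ) ^ (j + 1) * n) * gt k ^ (j + 1) := by
        rw [mul_assoc, ← pow_succ' (gt k) j]; congr 2; ring

/-- the normal form -/
def nf (k i : ℕ) (n : ℤ) (j : ℕ) : BS k := (gt k ^ i)⁻¹ * ga k ^ n * gt k ^ j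

theorem exists_nf (k : ℕ) (g : BS k) : ∃ i n j, g = nf k i n j := by
  have hg : g ∈ Subgroup.closure (Set.range (PresentedGroup.of (rels := rels k))) := by
    rw [PresentedGroup.closure_range_of]; trivial
  have hr : ∀ y : Fin 2, (PresentedGroup.of y : BS k) = ga k ∨ (PresentedGroup.of y : BS k) = gt k := by
    intro y
    fin_cases y
    · exact Or.inl rfl
    · exact Or.inr rfl
  have hA : ∀ i n j (e : ℤ), nf k i n j * ga k ^ e = nf k i (n + (k : ℤ) ^ j * e) j := by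
    intro i n j e
    unfold nf
    calc (gt k ^ i)⁻¹ * ga k ^ n * gt k ^ j * ga k ^ e = (gt k ^ i)⁻¹ * ga k ^ n * (gt k ^ j * ga k ^ e) := by group
      _ = (gt k ^ i)⁻¹ * ga k ^ n * (ga k ^ ((k : ℤ) ^ j * e) * gt k ^ j) := by rw [conj_ga_pow]
      _ = _ := by rw [zpow_add]; group
  induction hg using Subgroup.closure_induction_right with
  | one => exact ⟨0, 0, 0, by simp [nf]⟩
  | mul_right x _ y hy ih =>
    obtain ⟨i, n, j, rfl⟩ := ih
    obtain ⟨y, rfl⟩ := hy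
    rcases hr y with h | h
    · rw [h]
      have := hA i n j 1
      rw [zpow_one] at this
      exact ⟨_, _, _, this⟩
    · rw [h]
      exact ⟨i, n, j + 1, by unfold nf; rw [pow_succ]; group⟩
  | mul_inv_cancel x _ y hy ih =>
    obtain ⟨i, n, j, rfl⟩ := ih
    obtain ⟨y, rfl⟩ := hy
    rcases hr y with h | h
    · rw [h]
      have := hA i n j (-1)
      rw [zpow_neg_one] at this
      exact ⟨_, _, _, this⟩
    · rw [h]
      rcases j with _ | j
      · refine ⟨i + 1, k * n, 0, ?_⟩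
        unfold nf
        have h1 := conj_ga k n
        have h2 : ga k ^ n * (gt k)⁻¹ = (gt k)⁻¹ * ga k ^ ((k : ℤ) * n) := by
          rw [mul_inv_eq_iff_eq_mul, mul_assoc, ← h1]; group
        calc (gt k ^ i)⁻¹ * ga k ^ n * gt k ^ 0 * (gt k)⁻¹ = (gt k ^ i)⁻¹ * (ga k ^ n * (gt k)⁻¹) := by
              simp [mul_assoc]
          _ = (gt k ^ i)⁻¹ * ((gt k)⁻¹ * ga k ^ ((k : ℤ) * n)) := by rw [h2]
          _ = _ := by rw [pow_succ', mul_inv_rev]; simp [mul_assoc]
      · exact ⟨i, n, j, by unfold nf; rw [pow_succ]; group⟩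

end

theorem mod : S_MOD := by
  intro k hk
  haveI : Fact (2 ≤ k) := ⟨hk⟩
  have hk0 : (k : ℚ) ≠ 0 := by positivity
  let f : Fin 2 → Aff k := ![Aff.a, Aff.t]
  have hf : ∀ r ∈ rels k, FreeGroup.lift f r = 1 := by
    intro r hr
    rw [rels, Set.mem_singleton_iff] at hr
    subst hr
    simp only [map_mul, map_inv, map_pow, FreeGroup.lift_apply_of, f, Matrix.cons_val_zero, Matrix.cons_val_one]
    have h1 : (Aff.a : Aff k) ^ k = ⟨k, 0⟩ := by
      have := Aff.a_zpow (k := k) (k : ℤ)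
      rw [zpow_natCast] at this
      rw [this]; rfl
    rw [h1]
    ext
    · simp [Aff.a, Aff.t]
    · simp [Aff.a, Aff.t]
  let φ : BS k →* Aff k := PresentedGroup.toGroup hf
  have ha : φ (ga k) = Aff.a := PresentedGroup.toGroup.of hf
  have ht : φ (gt k) = Aff.t := PresentedGroup.toGroup.of hf
  have hnf : ∀ i n j, φ (nf k i n j) = ⟨n / (k : ℚ) ^ i, (j : ℤ) - i⟩ := by
    intro i n j
    unfold nf
    rw [map_mul, map_mul, map_inv, map_pow, map_zpow, map_pow, ha, ht, ← zpow_natCast, ← zpow_natCast, Aff.t_zpow, Aff.t_zpow,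
      Aff.a_zpow]
    ext
    · simp; field_simp
    · simp; ring
  refine ⟨⟨fun g => (φ g).x, fun g => (φ g).m, ?_, ?_, ?_, ?_, ?_⟩⟩
  · intro g h; rw [map_mul]; rfl
  · intro g h; rw [map_mul]; rfl
  · intro g h hx hm
    have h1 : φ (g * h⁻¹) = 1 := by
      rw [map_mul, map_inv, mul_inv_eq_one]
      exact Aff.ext hx hm
    obtain ⟨i, n, j, h2⟩ := exists_nf k (g * h⁻¹)
    rw [h2, hnf, Aff.one_def] at h1
    have h3 := congrArg Aff.x h1
    have h4 := congrArg Aff.m h1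
    simp only at h3 h4
    have h5 : n = 0 := by
      have : (n : ℚ) = 0 := by
        rw [div_eq_zero_iff] at h3
        rcases h3 with h3 | h3
        · exact h3
        · exact absurd h3 (pow_ne_zero _ hk0)
      exact_mod_cast this
    have h6 : j = i := by omega
    subst h5 h6
    have h7 : g * h⁻¹ = 1 := by rw [h2]; unfold nf; group
    exact mul_inv_eq_one.1 h7
  · intro i n e
    refine ⟨nf k i n i * gt k ^ e, ?_⟩
    rw [map_mul, hnf, map_zpow, ht, Aff.t_zpow]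
    constructor
    · simp
    · simp
  · intro g
    obtain ⟨i, n, j, rfl⟩ := exists_nf k g
    exact ⟨i, n, by rw [hnf]⟩

end Pool.Agent.Q281.BSG
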