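import Pool.Agent.Q281.BSG.Log

set_option autoImplicit false

/-!
# Conjugacy growth of `BS(1,k)`: levels of a word and the decomposition into runs
-/

namespace Pool.Agent.Q281.BSG

section

variable {k : ℕ} {G : Type} [Group G] {μ : Model k G} {S : Set G} {M : ℕ}

/-- the starting levels of the letters of a word which starts at level `e` -/
def lev (μ : Model k G) : ℤ → List G → List ℤ
  | _, [] => []
  | e, a :: l => e :: lev μ (e + μ.m a) l

theorem lev_nil (e : ℤ) : lev μ e [] = [] := rfl
theorem lev_cons (e : ℤ) (a : G) (l : List G) : lev μ e (a :: l) = e :: lev μ (e + μ.m a) l := rfl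

theorem lev_append (e : ℤ) (l1 l2 : List G) :
    lev μ e (l1 ++ l2) = lev μ e l1 ++ lev μ (e + μ.m l1.prod) l2 := by
  induction l1 generalizing e with
  | nil => simp [lev_nil, μ.m_one]
  | cons a l ih =>
    rw [List.cons_append, lev_cons, lev_cons, ih, List.prod_cons, μ.m_mul, List.cons_append, add_assoc]

theorem lev_eq (e : ℤ) (w : List G) :
    lev μ e w = (List.range w.length).map (fun i => e + μ.m (w.take i).prod) := by
  induction w generalizing e with
  | nil => rfl
  | cons a l ih =>
    rw [lev_cons, ih, List.length_cons, List.range_succ_eq_map, List.map_cons, List.map_map]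
    congr 1
    · simp [μ.m_one]
    · refine List.map_congr_left fun i _ => ?_
      simp only [Function.comp, List.take_succ_cons, List.prod_cons, μ.m_mul]
      ring

theorem card_filter_eq (w : List G) (p : ℤ → Prop) [DecidablePred p] :
    ((Finset.range w.length).filter (fun i => p (μ.m (w.take i).prod))).card = (lev μ 0 w).countP (fun h => p h) := by
  rw [lev_eq, List.countP_map]
  simp only [Function.comp_def, zero_add]
  rw [Finset.card_def, Finset.filter_val, Finset.range_val, ← Multiset.coe_range]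
  rw [← Multiset.countP_eq_card_filter, Multiset.coe_countP]

/-- maximal prefix on which the levels satisfy `P` -/
theorem split_run (P : ℤ → Prop) (l : List G) (e : ℤ) :
    ∃ l1 l2, l = l1 ++ l2 ∧ (∀ h ∈ lev μ e l1, P h) ∧ (l2 = [] ∨ ¬ P (e + μ.m l1.prod)) := by
  induction l generalizing e with
  | nil => exact ⟨[], [], rfl, by simp [lev_nil], Or.inl rfl⟩
  | cons a l ih =>
    by_cases h : P e
    · obtain ⟨l1, l2, h1, h2, h3⟩ := ih (e + μ.m a)
      refine ⟨a :: l1, l2, by rw [h1]; rfl, ?_, ?_⟩
      · intro x hx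
        rw [lev_cons, List.mem_cons] at hx
        rcases hx with rfl | hx
        · exact h
        · exact h2 x hx
      · rcases h3 with h3 | h3
        · exact Or.inl h3
        · right
          rw [List.prod_cons, μ.m_mul, ← add_assoc]
          exact h3
    · refine ⟨[], a :: l, rfl, by simp [lev_nil], Or.inr ?_⟩
      simpa [μ.m_one] using h

/-- the end of a nonempty word is within `M` of the level of its last letter -/
theorem Hyp.last_lev (H : Hyp μ S M) {l : List G} (hl : IsWord S l) (hne : l ≠ []) (e : ℤ) :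
    ∃ h ∈ lev μ e l, |e + μ.m l.prod - h| ≤ M := by
  induction l generalizing e with
  | nil => exact absurd rfl hne
  | cons a l ih =>
    by_cases h : l = []
    · subst h
      refine ⟨e, by simp [lev_cons], ?_⟩
      have := H.letter (hl a (by simp))
      simpa using this
    · obtain ⟨h1, h2, h3⟩ := ih (fun s hs => hl s (by simp [hs])) h (e + μ.m a)
      refine ⟨h1, by rw [lev_cons]; exact List.mem_cons_of_mem _ h2, ?_⟩
      rw [List.prod_cons, μ.m_mul, ← add_assoc]
      exact h3

/-- a loop at level `a` made of the subword `g` placed at level `e` and two connectors -/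
theorem Hyp.loop_le (H : Hyp μ S M) (g : G) (a e : ℤ) :
    ∃ g' : G, μ.m g' = 0 ∧ (k : ℚ) ^ a * μ.x g' = (k : ℚ) ^ e * μ.x g ∧
      wlen S g' ≤ wlen S g + ((e - a).natAbs + (e + μ.m g - a).natAbs) * wlen S (μ.el 0 1) := by
  have hk := H.two_le
  have hk0 : (k : ℚ) ≠ 0 := by positivity
  refine ⟨μ.el 0 (e - a) * g * (μ.el 0 (e + μ.m g - a))⁻¹, ?_, ?_, ?_⟩
  · rw [μ.m_mul, μ.m_mul, μ.m_inv, μ.m_el, μ.m_el]; ring
  · rw [μ.x_mul, μ.x_mul, μ.x_inv, μ.x_el, μ.x_el, μ.m_el]
    simp only [Int.cast_zero, mul_zero, neg_zero, zero_add, add_zero]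
    rw [← mul_assoc, ← zpow_add₀ hk0]
    congr 2
    ring
  · have h1 := wlen_mul_le H.gen (μ.el 0 (e - a) * g) (μ.el 0 (e + μ.m g - a))⁻¹
    have h2 := wlen_mul_le H.gen (μ.el 0 (e - a)) g
    rw [wlen_inv H.gen] at h1
    have h3 := H.conn_le (e - a)
    have h4 := H.conn_le (e + μ.m g - a)
    rw [add_mul]
    omega

/-- the data of the decomposition of a word with start level `e` relative to the window `[a, b)` -/
def Dec (μ : Model k G) (S : Set G) (M I X : ℕ) (a b : ℤ) (w : List G) (e : ℤ) : Prop :=
  ∃ (u v : List G) (gL gI gH : G) (nL nI nH rL rH : ℕ),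
    w = u ++ v ∧ μ.m gL = 0 ∧ μ.m gI = 0 ∧ μ.m gH = 0 ∧
    (k : ℚ) ^ e * μ.x u.prod = (k : ℚ) ^ a * μ.x gL + (k : ℚ) ^ a * μ.x gI + (k : ℚ) ^ b * μ.x gH ∧
    u.length = nL + nI + nH ∧
    wlen S gL ≤ nL + 2 * M * wlen S (μ.el 0 1) * rL ∧ wlen S gH ≤ nH + 2 * M * wlen S (μ.el 0 1) * rH ∧
    (∃ n : ℤ, μ.x gI = n / (k : ℚ) ^ I) ∧ |μ.x gI| ≤ nI * X * (k : ℚ) ^ (b - a) ∧
    nI = (lev μ e w).countP (fun h => a ≤ h ∧ h < b) ∧
    rL ≤ (lev μ e w).countP (fun h => a - M ≤ h ∧ h < a) ∧
    rH ≤ (lev μ e w).countP (fun h => b ≤ h ∧ h < b + M) ∧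
    a - M ≤ e + μ.m u.prod ∧ e + μ.m u.prod ≤ b + M

theorem countP_eq_zero_of {l : List ℤ} {p : ℤ → Prop} [DecidablePred p] (h : ∀ x ∈ l, ¬ p x) :
    l.countP (fun x => p x) = 0 := by
  rw [List.countP_eq_zero]
  intro x hx
  simpa using h x hx

theorem Hyp.dec (H : Hyp μ S M) {I X : ℕ}
    (hIX : ∀ s : G, (s ∈ S ∨ s⁻¹ ∈ S) → |μ.x s| ≤ X ∧ ∃ n : ℤ, μ.x s = n / (k : ℚ) ^ I)
    (a b : ℤ) (hab : a + M ≤ b) :
    ∀ (n : ℕ) (w : List G) (e : ℤ), w.length ≤ n → IsWord S w → a ≤ e → e < b → Dec μ S M I X a b w e := by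
  have hk := H.two_le
  have hk0 : (k : ℚ) ≠ 0 := by positivity
  have hk1 : (1 : ℚ) ≤ k := by exact_mod_cast (by omega : 1 ≤ k)
  have hkp : (0 : ℚ) < k := by positivity
  have hM := H.pos
  intro n
  induction n with
  | zero =>
    intro w e hw _ hae heb
    have : w = [] := List.eq_nil_of_length_eq_zero (by omega)
    subst this
    exact ⟨[], [], 1, 1, 1, 0, 0, 0, 0, 0, rfl, μ.m_one, μ.m_one, μ.m_one, by simp [μ.x_one], rfl,
      by simp [wlen_one], by simp [wlen_one], ⟨0, by simp [μ.x_one]⟩, by simp [μ.x_one], rfl, by simp, by simp,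
      by simp [μ.m_one]; omega, by simp [μ.m_one]; omega⟩
  | succ n ih =>
    intro w e hw hword hae heb
    rcases w with _ | ⟨s, l⟩
    · exact ih [] e (by simp) IsWord.nil hae heb
    have hs := hword s (by simp)
    have hl : IsWord S l := fun t ht => hword t (by simp [ht])
    have hsM := H.letter hs
    rw [abs_le] at hsM
    obtain ⟨hX, nn, hnn⟩ := hIX s hs
    -- the element which stands for the letter `s`
    have hsI : ∃ g : G, μ.m g = 0 ∧ (k : ℚ) ^ a * μ.x g = (k : ℚ) ^ e * μ.x s ∧
        (∃ n : ℤ, μ.x g = n / (k : ℚ) ^ I) ∧ |μ.x g| ≤ X * (k : ℚ) ^ (b - a) := by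
      obtain ⟨j, hj⟩ := Int.eq_ofNat_of_zero_le (sub_nonneg.2 hae)
      obtain ⟨g, hg1, hg2⟩ := μ.surj I (nn * k ^ j) 0
      have hgx : μ.x g = (k : ℚ) ^ (e - a) * μ.x s := by
        rw [hg1, hj, hnn, zpow_natCast]; push_cast; ring
      refine ⟨g, hg2, ?_, ⟨_, hg1⟩, ?_⟩
      · rw [hgx, ← mul_assoc, ← zpow_add₀ hk0]
        congr 2
        ring
      · rw [hgx, abs_mul, abs_of_pos (zpow_pos hkp _), mul_comm]
        exact mul_le_mul hX (zpow_le_zpow_right₀ hk1 (by omega)) (zpow_pos hkp _).le (by positivity)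
    obtain ⟨gs, hgs0, hgs1, ⟨ns, hgs2⟩, hgs3⟩ := hsI
    -- the case in which the rest stays outside
    have key : ∀ (l1 l2 : List G) (P : ℤ → Prop), l = l1 ++ l2 → (∀ h ∈ lev μ (e + μ.m s) l1, P h) →
        (∀ h, P h → ¬ (a ≤ h ∧ h < b)) → l2 = [] → Dec μ S M I X a b (s :: l) e := by
      intro l1 l2 P h1 h2 h3 h4
      subst h4
      rw [List.append_nil] at h1
      subst h1
      refine ⟨[s], l, 1, gs, 1, 0, 1, 0, 0, 0, rfl, μ.m_one, hgs0, μ.m_one, ?_, rfl, by simp [wlen_one],
        by simp [wlen_one], ⟨ns, hgs2⟩, by simpa using hgs3, ?_, by simp, by simp, ?_, ?_⟩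
      · simp [μ.x_one, hgs1]
      · rw [lev_cons, List.countP_cons, countP_eq_zero_of (fun x hx => h3 x (h2 x hx))]
        simp [hae, heb]
      · simp; omega
      · simp; omega
    rw [List.length_cons] at hw
    rcases lt_or_ge (e + μ.m s) a with hlow | hge
    · -- low excursion
      obtain ⟨l1, l2, h1, h2, h3⟩ := split_run (μ := μ) (fun h => h < a) l (e + μ.m s)
      rcases h3 with h3 | h3
      · exact key l1 l2 _ h1 h2 (fun h hh => by omega) h3
      · have hl1 : l1 ≠ [] := by
          rintro rfl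
          apply h3
          simpa [μ.m_one] using hlow
        have hw1 : IsWord S l1 := fun t ht => hl t (by rw [h1]; simp [ht])
        have hw2 : IsWord S l2 := fun t ht => hl t (by rw [h1]; simp [ht])
        obtain ⟨h4, h5, h6⟩ := H.last_lev hw1 hl1 (e + μ.m s)
        have h7 := h2 h4 h5
        rw [abs_le] at h6
        have hlen : l.length = l1.length + l2.length := by rw [h1, List.length_append]
        obtain ⟨u, v, gL, gI, gH, nL, nI, nH, rL, rH, d1, d2, d3, d4, d5, d6, d7, d8, ⟨m9, d9⟩, d10, d11, d12, d13, d14, d15⟩ :=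
          ih l2 (e + μ.m s + μ.m l1.prod) (by
            have : 0 < l1.length := List.length_pos_iff.2 hl1
            omega) hw2 (by omega) (by omega)
        obtain ⟨g', e1, e2, e3⟩ := H.loop_le l1.prod a (e + μ.m s)
        have e4 := wlen_le hw1
        have e5 : (e + μ.m s - a).natAbs ≤ M := by omega
        have e6 : (e + μ.m s + μ.m l1.prod - a).natAbs ≤ M := by omega
        have e7 : wlen S g' ≤ l1.length + 2 * M * wlen S (μ.el 0 1) := by
          have : ((e + μ.m s - a).natAbs + (e + μ.m s + μ.m l1.prod - a).natAbs) * wlen S (μ.el 0 1) ≤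
            2 * M * wlen S (μ.el 0 1) := Nat.mul_le_mul_right _ (by omega)
          omega
        have e8 := wlen_mul_le H.gen g' gL
        refine ⟨s :: (l1 ++ u), v, g' * gL, gs * gI, gH, l1.length + nL, 1 + nI, nH, 1 + rL, rH, ?_, ?_, ?_, d4, ?_, ?_,
          ?_, d8, ?_, ?_, ?_, ?_, ?_, ?_, ?_⟩
        · rw [h1, d1]; simp
        · rw [μ.m_mul, e1, d2]; rfl
        · rw [μ.m_mul, hgs0, d3]; rfl
        · rw [List.prod_cons, List.prod_append, μ.x_mul, μ.x_mul, μ.x_mul, μ.x_mul, e1, hgs0, zpow_zero, one_mul,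
            one_mul]
          rw [zpow_add₀ hk0] at e2
          rw [zpow_add₀ hk0, zpow_add₀ hk0] at d5
          linear_combination d5 - hgs1 - e2
        · rw [List.length_cons, List.length_append, d6]; ring
        · calc wlen S (g' * gL) ≤ wlen S g' + wlen S gL := e8
            _ ≤ (l1.length + 2 * M * wlen S (μ.el 0 1)) + (nL + 2 * M * wlen S (μ.el 0 1) * rL) := add_le_add e7 d7
            _ = _ := by ring
        · refine ⟨ns + m9, ?_⟩
          rw [μ.x_mul, hgs0, zpow_zero, one_mul, hgs2, d9]; push_cast; ring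
        · rw [μ.x_mul, hgs0, zpow_zero, one_mul]
          calc |μ.x gs + μ.x gI| ≤ |μ.x gs| + |μ.x gI| := abs_add_le _ _
            _ ≤ X * (k : ℚ) ^ (b - a) + nI * X * (k : ℚ) ^ (b - a) := add_le_add hgs3 d10
            _ = _ := by push_cast; ring
        · rw [h1, lev_cons, lev_append, List.countP_cons, List.countP_append, ← d11,
            countP_eq_zero_of (fun x hx => by have := h2 x hx; omega)]
          simp [hae, heb]; ring
        · rw [h1, lev_cons, lev_append, List.countP_cons, List.countP_append]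
          have : 1 ≤ (lev μ (e + μ.m s) l1).countP (fun h => decide (a - M ≤ h ∧ h < a)) := by
            rcases l1 with _ | ⟨t, l1⟩
            · exact absurd rfl hl1
            · rw [lev_cons, List.countP_cons_of_pos (by simp; omega)]
              omega
          omega
        · rw [h1, lev_cons, lev_append, List.countP_cons, List.countP_append]
          omega
        · rw [List.prod_cons, List.prod_append, μ.m_mul, μ.m_mul]
          omega
        · rw [List.prod_cons, List.prod_append, μ.m_mul, μ.m_mul]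
          omega
    · rcases lt_or_ge (e + μ.m s) b with hin | hhigh
      · -- the next level is in the window
        obtain ⟨u, v, gL, gI, gH, nL, nI, nH, rL, rH, d1, d2, d3, d4, d5, d6, d7, d8, ⟨m9, d9⟩, d10, d11, d12, d13, d14, d15⟩ :=
          ih l (e + μ.m s) (by omega) hl hge hin
        refine ⟨s :: u, v, gL, gs * gI, gH, nL, 1 + nI, nH, rL, rH, ?_, d2, ?_, d4, ?_, ?_,
          d7, d8, ?_, ?_, ?_, ?_, ?_, ?_, ?_⟩
        · rw [d1]; simp
        · rw [μ.m_mul, hgs0, d3]; rfl
        · rw [List.prod_cons, μ.x_mul, μ.x_mul, hgs0, zpow_zero, one_mul]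
          rw [zpow_add₀ hk0] at d5
          linear_combination d5 - hgs1
        · rw [List.length_cons, d6]; ring
        · refine ⟨ns + m9, ?_⟩
          rw [μ.x_mul, hgs0, zpow_zero, one_mul, hgs2, d9]; push_cast; ring
        · rw [μ.x_mul, hgs0, zpow_zero, one_mul]
          calc |μ.x gs + μ.x gI| ≤ |μ.x gs| + |μ.x gI| := abs_add_le _ _
            _ ≤ X * (k : ℚ) ^ (b - a) + nI * X * (k : ℚ) ^ (b - a) := add_le_add hgs3 d10
            _ = _ := by push_cast; ring
        · rw [lev_cons, List.countP_cons, ← d11]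
          simp [hae, heb]; ring
        · rw [lev_cons, List.countP_cons]
          omega
        · rw [lev_cons, List.countP_cons]
          omega
        · rw [List.prod_cons, μ.m_mul]
          omega
        · rw [List.prod_cons, μ.m_mul]
          omega
      · -- high excursion
        obtain ⟨l1, l2, h1, h2, h3⟩ := split_run (μ := μ) (fun h => b ≤ h) l (e + μ.m s)
        rcases h3 with h3 | h3
        · exact key l1 l2 _ h1 h2 (fun h hh => by omega) h3
        · have hl1 : l1 ≠ [] := by
            rintro rfl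
            apply h3
            simpa [μ.m_one] using hhigh
          have hw1 : IsWord S l1 := fun t ht => hl t (by rw [h1]; simp [ht])
          have hw2 : IsWord S l2 := fun t ht => hl t (by rw [h1]; simp [ht])
          obtain ⟨h4, h5, h6⟩ := H.last_lev hw1 hl1 (e + μ.m s)
          have h7 := h2 h4 h5
          rw [abs_le] at h6
          have hlen : l.length = l1.length + l2.length := by rw [h1, List.length_append]
          obtain ⟨u, v, gL, gI, gH, nL, nI, nH, rL, rH, d1, d2, d3, d4, d5, d6, d7, d8, ⟨m9, d9⟩, d10, d11, d12, d13, d14, d15⟩ :=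
            ih l2 (e + μ.m s + μ.m l1.prod) (by
              have : 0 < l1.length := List.length_pos_iff.2 hl1
              omega) hw2 (by omega) (by omega)
          obtain ⟨g', e1, e2, e3⟩ := H.loop_le l1.prod b (e + μ.m s)
          have e4 := wlen_le hw1
          have e5 : (e + μ.m s - b).natAbs ≤ M := by omega
          have e6 : (e + μ.m s + μ.m l1.prod - b).natAbs ≤ M := by omega
          have e7 : wlen S g' ≤ l1.length + 2 * M * wlen S (μ.el 0 1) := by
            have : ((e + μ.m s - b).natAbs + (e + μ.m s + μ.m l1.prod - b).natAbs) * wlen S (μ.el 0 1) ≤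
              2 * M * wlen S (μ.el 0 1) := Nat.mul_le_mul_right _ (by omega)
            omega
          have e8 := wlen_mul_le H.gen g' gH
          refine ⟨s :: (l1 ++ u), v, gL, gs * gI, g' * gH, nL, 1 + nI, l1.length + nH, rL, 1 + rH, ?_, d2, ?_, ?_, ?_, ?_,
            d7, ?_, ?_, ?_, ?_, ?_, ?_, ?_, ?_⟩
          · rw [h1, d1]; simp
          · rw [μ.m_mul, hgs0, d3]; rfl
          · rw [μ.m_mul, e1, d4]; rfl
          · rw [List.prod_cons, List.prod_append, μ.x_mul, μ.x_mul, μ.x_mul, μ.x_mul, e1, hgs0, zpow_zero, one_mul,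
              one_mul]
            rw [zpow_add₀ hk0] at e2
            rw [zpow_add₀ hk0, zpow_add₀ hk0] at d5
            linear_combination d5 - hgs1 - e2
          · rw [List.length_cons, List.length_append, d6]; ring
          · calc wlen S (g' * gH) ≤ wlen S g' + wlen S gH := e8
              _ ≤ (l1.length + 2 * M * wlen S (μ.el 0 1)) + (nH + 2 * M * wlen S (μ.el 0 1) * rH) := add_le_add e7 d8
              _ = _ := by ring
          · refine ⟨ns + m9, ?_⟩
            rw [μ.x_mul, hgs0, zpow_zero, one_mul, hgs2, d9]; push_cast; ring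
          · rw [μ.x_mul, hgs0, zpow_zero, one_mul]
            calc |μ.x gs + μ.x gI| ≤ |μ.x gs| + |μ.x gI| := abs_add_le _ _
              _ ≤ X * (k : ℚ) ^ (b - a) + nI * X * (k : ℚ) ^ (b - a) := add_le_add hgs3 d10
              _ = _ := by push_cast; ring
          · rw [h1, lev_cons, lev_append, List.countP_cons, List.countP_append, ← d11,
              countP_eq_zero_of (fun x hx => by have := h2 x hx; omega)]
            simp [hae, heb]; ring
          · rw [h1, lev_cons, lev_append, List.countP_cons, List.countP_append]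
            omega
          · rw [h1, lev_cons, lev_append, List.countP_cons, List.countP_append]
            have : 1 ≤ (lev μ (e + μ.m s) l1).countP (fun h => decide (b ≤ h ∧ h < b + M)) := by
              rcases l1 with _ | ⟨t, l1⟩
              · exact absurd rfl hl1
              · rw [lev_cons, List.countP_cons_of_pos (by simp; omega)]
                omega
            omega
          · rw [List.prod_cons, List.prod_append, μ.m_mul, μ.m_mul]
            omega
          · rw [List.prod_cons, List.prod_append, μ.m_mul, μ.m_mul]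
            omega

end

end Pool.Agent.Q281.BSG
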