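import Pool.Agent.Q281.BSG.Conj

set_option autoImplicit false

/-!
# Conjugacy growth of `BS(1,k)`: job UP
-/

namespace Pool.Agent.Q281.BSG

section

variable {k : ℕ} {G : Type} [Group G] {μ : Model k G} {S : Set G} {M : ℕ}

/-- `(u,m)` for `u = (u0 mod k^d) (k^m-1)/(k^d-1)` -/
noncomputable def kapD (μ : Model k G) (m d u0 : ℕ) : ConjClasses G :=
  kap μ m ((u0 % k ^ d) * ((k ^ m - 1) / (k ^ d - 1)))

theorem kap_eq_of_modEq (hk : 2 ≤ k) {m : ℕ} {u v : ℕ} (h : u ≡ v [MOD k ^ m - 1]) : kap μ m u = kap μ m v := by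
  unfold kap
  rw [ConjClasses.mk_eq_mk_iff_isConj]
  refine conj_mod hk _ _ m ?_
  have hQ : 1 ≤ k ^ m := Nat.one_le_pow _ _ (by omega)
  have h1 := (Int.natCast_modEq_iff.2 h).symm.dvd
  rw [Nat.cast_sub hQ] at h1
  push_cast at h1
  exact h1

theorem kap_shift (hk : 2 ≤ k) (m u j : ℕ) : kap μ m (k ^ j * u) = kap μ m u := by
  unfold kap
  rw [ConjClasses.mk_eq_mk_iff_isConj]
  have := (conj_shift (μ := μ) hk u m j).symm
  push_cast
  exact this

/-- the dichotomy: `m` elements in the class, or the class is `kapD m d u` with `d ≤ m / 2` -/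
theorem orbit (hk : 2 ≤ k) {m : ℕ} (hm : 1 ≤ m) (u : ℕ) (hu : u < k ^ m - 1) [DecidableEq (ConjClasses G)] :
    m ≤ ((Finset.range (k ^ m)).filter (fun v => kap μ m v = kap μ m u)).card ∨
    ∃ d, 1 ≤ d ∧ d ≤ m / 2 ∧ kapD μ m d (u % k ^ (m / 2)) = kap μ m u := by
  classical
  set Q := k ^ m - 1 with hQ
  have hQ1 : 1 < k ^ m := Nat.one_lt_pow (by omega) (by omega)
  have hkm : k ^ m ≡ 1 [MOD Q] := by
    exact ((Nat.modEq_iff_dvd' hQ1.le).2 dvd_rfl).symm
  have hcop : ∀ j, Nat.Coprime (k ^ j) Q := by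
    intro j
    apply Nat.Coprime.pow_left
    have h1 : Nat.Coprime (k ^ m) Q := by
      rw [hQ]
      have : Nat.Coprime (k ^ m - 1 + 1) (k ^ m - 1) := by simp
      rwa [Nat.sub_add_cancel hQ1.le] at this
    exact Nat.Coprime.coprime_dvd_left (dvd_pow_self k (by omega)) h1
  have hex : ∃ d, 1 ≤ d ∧ k ^ d * u ≡ u [MOD Q] := ⟨m, hm, by simpa using hkm.mul_right u⟩
  set d := Nat.find hex with hd
  obtain ⟨hd1, hd2⟩ := Nat.find_spec hex
  rw [← hd] at hd1 hd2
  have hdm : d ≤ m := Nat.find_min' hex ⟨hm, by simpa using hkm.mul_right u⟩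
  have hmin : ∀ e, 1 ≤ e → e < d → ¬ (k ^ e * u ≡ u [MOD Q]) := fun e he1 he2 h => Nat.find_min hex he2 ⟨he1, h⟩
  rcases eq_or_lt_of_le hdm with hdm | hdm
  · left
    have hinj : Set.InjOn (fun j => (k ^ j * u) % Q) (Finset.range m : Set ℕ) := by
      have key : ∀ i j, i < j → j < m → ¬ ((k ^ i * u) % Q = (k ^ j * u) % Q) := by
        intro i j hij hjm h
        have h1 : k ^ i * u ≡ k ^ j * u [MOD Q] := h
        have h2 : k ^ j * u = k ^ i * (k ^ (j - i) * u) := by
          rw [← mul_assoc, ← pow_add]; congr 2; omega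
        rw [h2] at h1
        have h3 := Nat.ModEq.cancel_left_of_coprime (by rw [Nat.gcd_comm]; exact hcop i) h1
        exact hmin (j - i) (by omega) (by omega) h3.symm
      intro i hi j hj h
      simp only [Finset.coe_range, Set.mem_Iio] at hi hj
      rcases lt_trichotomy i j with h1 | h1 | h1
      · exact absurd h (key i j h1 hj)
      · exact h1
      · exact absurd h.symm (key j i h1 hi)
    have hcard := Finset.card_image_of_injOn hinj
    rw [Finset.card_range] at hcard
    refine hcard.symm.le.trans (Finset.card_le_card ?_)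
    intro v hv
    obtain ⟨j, _, rfl⟩ := Finset.mem_image.1 hv
    rw [Finset.mem_filter, Finset.mem_range]
    have h1 : (k ^ j * u) % Q < Q := Nat.mod_lt _ (by omega)
    refine ⟨by omega, ?_⟩
    rw [kap_eq_of_modEq hk (Nat.mod_modEq _ _), kap_shift hk]
  · right
    -- `d` divides `m`
    have hmod : k ^ (m % d) * u ≡ u [MOD Q] := by
      have h1 : ∀ j, k ^ (d * j) * u ≡ u [MOD Q] := by
        intro j
        induction j with
        | zero => simp; rfl
        | succ j ih =>
          have : k ^ (d * (j + 1)) * u = k ^ (d * j) * (k ^ d * u) := by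
            rw [← mul_assoc, ← pow_add]; congr 2
          rw [this]
          exact (hd2.mul_left _).trans ih
      have h2 : k ^ m * u = k ^ (m % d) * (k ^ (d * (m / d)) * u) := by
        rw [← mul_assoc, ← pow_add, Nat.mod_add_div]
      have h3 : k ^ m * u ≡ u [MOD Q] := by simpa using hkm.mul_right u
      rw [h2] at h3
      exact ((h1 (m / d)).mul_left _).symm.trans h3
    have hdvd : d ∣ m := by
      rw [Nat.dvd_iff_mod_eq_zero]
      by_contra hne
      exact hmin (m % d) (by omega) (Nat.mod_lt _ (by omega)) hmod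
    obtain ⟨r, hr⟩ := hdvd
    have hr2 : 2 ≤ r := by
      by_contra hcon
      have : r = 0 ∨ r = 1 := by omega
      rcases this with rfl | rfl <;> simp at hr <;> omega
    have hdm2 : d ≤ m / 2 := by
      rw [Nat.le_div_iff_mul_le (by norm_num), hr]
      exact Nat.mul_le_mul_left _ hr2
    refine ⟨d, hd1, hdm2, ?_⟩
    have hkd : 1 < k ^ d := Nat.one_lt_pow (by omega) (by omega)
    have hdiv : (k ^ d - 1) ∣ Q := by
      have := Nat.sub_dvd_pow_sub_pow (k ^ d) 1 r
      rwa [one_pow, ← pow_mul, ← hr] at this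
    obtain ⟨q, hq⟩ := hdiv
    have hq0 : Q / (k ^ d - 1) = q := by
      rw [hq]; exact Nat.mul_div_cancel_left _ (by omega)
    have hQ0 : 0 < Q := by omega
    have hqpos : 0 < q := by
      rcases Nat.eq_zero_or_pos q with h | h
      · rw [h] at hq; omega
      · exact h
    -- `q` divides `u`
    have hqu : q ∣ u := by
      have h1 : Q ∣ k ^ d * u - u := by
        have := (Nat.modEq_iff_dvd' (Nat.le_mul_of_pos_left u (by positivity))).1 hd2.symm
        exact this
      have h2 : k ^ d * u - u = (k ^ d - 1) * u := by rw [Nat.sub_mul, one_mul]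
      rw [h2, hq] at h1
      exact Nat.dvd_of_mul_dvd_mul_left (by omega) h1
    obtain ⟨v, hv⟩ := hqu
    have hvlt : v < k ^ d - 1 := by
      rw [hv, hq, mul_comm (k ^ d - 1)] at hu
      exact Nat.lt_of_mul_lt_mul_left hu
    -- `q = 1` modulo `k^d`
    have hq1 : q ≡ 1 [MOD k ^ d] := by
      have h1 : (k ^ d - 1) * q + 1 = k ^ m := by rw [← hq, hQ]; omega
      have h2 : k ^ d * q + 1 = k ^ m + q := by
        have : (k ^ d - 1) * q + q = k ^ d * q := by
          rw [Nat.sub_mul, one_mul, Nat.sub_add_cancel (Nat.le_mul_of_pos_left q (by positivity))]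
        omega
      have h3 : k ^ d ∣ k ^ m := pow_dvd_pow k hdm.le
      have h4 : k ^ m + q ≡ q [MOD k ^ d] := by
        have : k ^ m ≡ 0 [MOD k ^ d] := (Nat.modEq_zero_iff_dvd).2 h3
        simpa using this.add_right q
      have h5 : k ^ d * q + 1 ≡ 1 [MOD k ^ d] := by
        have : k ^ d * q ≡ 0 [MOD k ^ d] := (Nat.modEq_zero_iff_dvd).2 (dvd_mul_right _ _)
        simpa using this.add_right 1
      rw [h2] at h5
      exact h4.symm.trans h5
    have hmodd : u % k ^ (m / 2) % k ^ d = v := by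
      rw [Nat.mod_mod_of_dvd _ (pow_dvd_pow k hdm2)]
      have h1 : u ≡ v [MOD k ^ d] := by
        rw [hv]
        simpa using hq1.mul_right v
      have h2 : v % k ^ d = v := Nat.mod_eq_of_lt (by omega)
      rw [← h2]
      exact h1
    unfold kapD
    rw [hmodd, ← hQ, hq0, mul_comm, ← hv]

end

theorem up (hC : S_C) (hY : S_CYC) : S_UP := by
  intro k G _ μ S M H
  classical
  have hk := H.two_le
  have hM := H.pos
  obtain ⟨C1, hC1⟩ := hC k G μ S M H
  obtain ⟨C2, hC2⟩ := hY k G μ S M H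
  refine ⟨C1 + C2, ?_⟩
  intro m z hm hz0 hz1
  have ht : ENNReal.ofReal z ≤ 1 := by rw [← ENNReal.ofReal_one]; exact ENNReal.ofReal_le_ofReal hz1
  rw [ENNReal.ofReal_pow hz0.le, ENNReal.ofReal_add (by unfold NN; positivity) (by unfold NN; positivity),
    ENNReal.ofReal_div_of_pos (by positivity), ENNReal.ofReal_mul (by positivity),
    ENNReal.ofReal_mul (by positivity), ENNReal.ofReal_pow hz0.le, ofReal_NN m hz0.le, ofReal_NN (m / 2) hz0.le,
    ENNReal.ofReal_natCast]
  set t := ENNReal.ofReal z with htdef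
  have hQ1 : 1 < k ^ m := Nat.one_lt_pow (by omega) (by omega)
  have hm0 : (m : ENNReal) ≠ 0 := by
    rw [Nat.cast_ne_zero]; omega
  -- the two parts
  set F : ConjClasses G → ENNReal := fun κ =>
    (∑ u ∈ Finset.range (k ^ m), if kap μ m u = κ then t ^ LL μ S m u else 0) / m with hF
  set F2 : ConjClasses G → ENNReal := fun κ =>
    ∑ d ∈ Finset.Icc 1 (m / 2), ∑ u0 ∈ Finset.range (k ^ (m / 2)),
      if kapD μ m d u0 = κ then t ^ (m / 2 / M) * t ^ LL μ S (m / 2) u0 else 0 with hF2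
  have hmain : ∀ κ : ConjClasses G, μ.cm κ = m → t ^ clen S κ * t ^ (C1 + C2) ≤ F κ + F2 κ := by
    intro κ hκ
    obtain ⟨g, hg1, hg2⟩ := exists_clen S κ
    have hgm : μ.m g = m := by rw [← hκ, ← hg1, μ.cm_mk]
    obtain ⟨u, hu, huc⟩ := conj_rep hk hm g hgm
    have hκu : kap μ m u = κ := by
      rw [← hg1]
      unfold kap
      rw [ConjClasses.mk_eq_mk_iff_isConj]
      exact huc.symm
    -- every element of the class is short
    have hshort : ∀ v, v < k ^ m → kap μ m v = κ → LL μ S m v ≤ clen S κ + C2 := by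
      intro v hv hv2
      rw [← hg2]
      refine hC2 m v (μ.el v m) g hm (by positivity) (by exact_mod_cast hv) (μ.x_el _ _) (μ.m_el _ _) ?_
      rw [← ConjClasses.mk_eq_mk_iff_isConj, hg1]
      exact hv2
    rcases orbit (μ := μ) hk hm u hu with h1 | ⟨d, hd1, hd2, hd3⟩
    · rw [hκu] at h1
      refine le_trans ?_ le_self_add
      rw [hF]
      simp only
      rw [ENNReal.le_div_iff_mul_le (Or.inl hm0) (Or.inl (ENNReal.natCast_ne_top m)), ← pow_add]
      calc t ^ (clen S κ + (C1 + C2)) * m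
          ≤ t ^ (clen S κ + (C1 + C2)) * ((Finset.range (k ^ m)).filter (fun v => kap μ m v = κ)).card := by
            apply mul_le_mul_right
            exact_mod_cast h1
        _ = ∑ u ∈ (Finset.range (k ^ m)).filter (fun v => kap μ m v = κ), t ^ (clen S κ + (C1 + C2)) := by
            rw [Finset.sum_const, nsmul_eq_mul, mul_comm]
        _ ≤ ∑ u ∈ (Finset.range (k ^ m)).filter (fun v => kap μ m v = κ), t ^ LL μ S m u := by
            refine Finset.sum_le_sum fun v hv => pow_le_pow_enn ht ?_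
            rw [Finset.mem_filter, Finset.mem_range] at hv
            have := hshort v hv.1 hv.2
            omega
        _ = _ := by rw [Finset.sum_filter]
    · rw [hκu] at hd3
      refine le_trans ?_ le_add_self
      rw [hF2]
      simp only
      have hu0 : u % k ^ (m / 2) < k ^ (m / 2) := Nat.mod_lt _ (by positivity)
      refine le_trans ?_ (Finset.single_le_sum (f := fun d => ∑ u0 ∈ Finset.range (k ^ (m / 2)),
        if kapD μ m d u0 = κ then t ^ (m / 2 / M) * t ^ LL μ S (m / 2) u0 else 0) (fun _ _ => zero_le)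
        (Finset.mem_Icc.2 ⟨hd1, hd2⟩))
      refine le_trans ?_ (Finset.single_le_sum (f := fun u0 =>
        if kapD μ m d u0 = κ then t ^ (m / 2 / M) * t ^ LL μ S (m / 2) u0 else 0) (fun _ _ => zero_le)
        (Finset.mem_range.2 hu0))
      rw [if_pos hd3, ← pow_add, ← pow_add]
      apply pow_le_pow_enn ht
      have h2 := hshort u (by omega) hκu
      -- cut
      have h3 : μ.el u m = μ.el ((u % k ^ (m / 2) : ℕ) : ℤ) ((m / 2 : ℕ) : ℤ) *
          μ.el ((u / k ^ (m / 2) : ℕ) : ℤ) ((m - m / 2 : ℕ) : ℤ) := by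
        symm
        refine μ.eq_el ?_ ?_
        · rw [μ.x_mul, μ.x_el, μ.x_el, μ.m_el, zpow_natCast]
          have := Nat.mod_add_div u (k ^ (m / 2))
          have h5 : ((u % k ^ (m / 2) + k ^ (m / 2) * (u / k ^ (m / 2)) : ℕ) : ℚ) = (u : ℚ) := by rw [this]
          push_cast at h5 ⊢
          exact h5
        · rw [μ.m_mul, μ.m_el, μ.m_el]; omega
      have h4 := hC1 (m / 2) (m - m / 2) ((u % k ^ (m / 2) : ℕ) : ℤ) ((u / k ^ (m / 2) : ℕ) : ℤ)
        (μ.el ((u % k ^ (m / 2) : ℕ) : ℤ) ((m / 2 : ℕ) : ℤ))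
        (μ.el ((u / k ^ (m / 2) : ℕ) : ℤ) ((m - m / 2 : ℕ) : ℤ)) (μ.m_el _ _) (μ.m_el _ _) (μ.x_el _ _) (μ.x_el _ _)
        (by rw [abs_of_nonneg (by positivity)]; exact_mod_cast hu0.le)
      rw [← h3] at h4
      have h5 : m / 2 / M ≤ wlen S (μ.el ((u / k ^ (m / 2) : ℕ) : ℤ) ((m - m / 2 : ℕ) : ℤ)) := by
        have h6 := H.abs_m_le (μ.el ((u / k ^ (m / 2) : ℕ) : ℤ) ((m - m / 2 : ℕ) : ℤ))
        rw [μ.m_el, abs_of_nonneg (by positivity)] at h6
        have h7 : m - m / 2 ≤ M * wlen S (μ.el ((u / k ^ (m / 2) : ℕ) : ℤ) ((m - m / 2 : ℕ) : ℤ)) := by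
          exact_mod_cast h6
        apply Nat.div_le_of_le_mul
        omega
      unfold LL at h2 ⊢
      omega
  -- sum over the classes
  have hsum1 : ∑' κ : ConjClasses G, F κ ≤ (∑ u ∈ Finset.range (k ^ m), t ^ LL μ S m u) / m := by
    simp only [hF, div_eq_mul_inv]
    rw [ENNReal.tsum_mul_right]
    apply mul_le_mul_left
    rw [Summable.tsum_finsetSum (fun _ _ => ENNReal.summable)]
    refine Finset.sum_le_sum fun u _ => ?_
    rw [tsum_ite_eq' (kap μ m u)]
  have hsum2 : ∑' κ : ConjClasses G, F2 κ ≤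
      m * t ^ (m / 2 / M) * ∑ u ∈ Finset.range (k ^ (m / 2)), t ^ LL μ S (m / 2) u := by
    simp only [hF2]
    rw [Summable.tsum_finsetSum (fun _ _ => ENNReal.summable)]
    have h1 : ∀ d ∈ Finset.Icc 1 (m / 2), ∑' κ : ConjClasses G, ∑ u0 ∈ Finset.range (k ^ (m / 2)),
        (if kapD μ m d u0 = κ then t ^ (m / 2 / M) * t ^ LL μ S (m / 2) u0 else 0) ≤
        t ^ (m / 2 / M) * ∑ u ∈ Finset.range (k ^ (m / 2)), t ^ LL μ S (m / 2) u := by
      intro d _
      rw [Summable.tsum_finsetSum (fun _ _ => ENNReal.summable), Finset.mul_sum]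
      refine Finset.sum_le_sum fun u _ => ?_
      rw [tsum_ite_eq' (kapD μ m d u)]
    refine (Finset.sum_le_sum h1).trans ?_
    rw [Finset.sum_const, Nat.card_Icc, nsmul_eq_mul, mul_assoc]
    apply mul_le_mul_left
    exact_mod_cast (by omega : m / 2 + 1 - 1 ≤ m)
  unfold EE
  rw [← ENNReal.tsum_mul_right]
  calc ∑' κ : {κ : ConjClasses G // μ.cm κ = m}, t ^ clen S κ.1 * t ^ (C1 + C2)
      ≤ ∑' κ : {κ : ConjClasses G // μ.cm κ = m}, (F κ.1 + F2 κ.1) :=
        ENNReal.tsum_le_tsum fun κ => hmain κ.1 κ.2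
    _ ≤ ∑' κ : ConjClasses G, (F κ + F2 κ) :=
        ENNReal.tsum_comp_le_tsum_of_injective Subtype.val_injective (fun κ => F κ + F2 κ)
    _ = ∑' κ : ConjClasses G, F κ + ∑' κ : ConjClasses G, F2 κ := ENNReal.tsum_add
    _ ≤ _ := add_le_add hsum1 hsum2

end Pool.Agent.Q281.BSG
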